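import Pool.Agent.H70.RC.Defs

/-!
# The relativizing consequences of NP ⊆ BQP: module targets
-/

set_option autoImplicit false

namespace Pool.Agent.H70.RC

open Finset Filter Pool.Agent.H6.NB Pool.Agent.H70.OQ Pool.Agent.H70.EH Pool.Agent.H70.EI
open Pool.Agent.H78.XQ

/-! ## Part A: functions in P^NP -/

/-- PNB: composition. -/
def T_PNB : Prop := ∀ (V α β : Type) (t c c' : ℕ) (g : (V → Bool) → α) (h : α → (V → Bool) → β),
  PNP t c g → (∀ a, PNP t c' (h a)) → PNP t (c + c') fun X => h (g X) X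

/-- PNM: monotonicity. -/
def T_PNM : Prop := ∀ (V α : Type) (t t' c c' : ℕ) (g : (V → Bool) → α), t ≤ t' → c ≤ c' →
  PNP t c g → PNP t' c' g

/-- PNT: from functions to trees. -/
def T_PNT : Prop := ∀ (V : Type) (t c : ℕ) (g : (V → Bool) → Bool), PNP t c g →
  ∃ P : PT V, P.depth ≤ c ∧ P.Small t ∧ ∀ X, P.eval X = g X

/-- FND: search for the first element of a list (binary search). -/
def T_FND : Prop := ∀ (V β : Type) (t k : ℕ) (L : List β) (τ : β → Option (Term V))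
  (p : β → (V → Bool) → Bool), L.length ≤ 2 ^ k → k ≤ t →
  (∀ b ∈ L, ∀ T, τ b = some T → T.length ≤ t) →
  (∀ b ∈ L, ∀ X, (p b X = true ↔ ∃ T, τ b = some T ∧ Term.Sat X T)) →
  PNP t (k + 1) fun X => L.find? fun b => p b X

/-- RNP: the canonical evaluation is in P^NP. -/
def T_RNP : Prop := ∀ (V W S : Type) [DecidableEq S] (t k m c r : ℕ) (st : W → Option S)
  (bv : (V → Bool) → W → Bool) (F : DNF W) (β : (V → Bool) → S → Bool), k ≤ t → m ≤ t →
  F.length ≤ 2 ^ k → (∀ T ∈ F, T.length ≤ m) →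
  (∀ w, (∃ b, ∀ X, bv X w = b) ∨ ∃ v, ∀ X, bv X w = X v) →
  (∀ T ∈ F, ∀ p ∈ T, ∀ s, st p.1 = some s → PNP t c fun X => β X s) → ∀ κ,
  PNP t (r * (k + 1 + m * c)) fun X => run st (bv X) F (β X) r κ

/-- RNC: the canonical evaluation is correct. -/
def T_RNC : Prop := ∀ (W S : Type) [DecidableEq S] (st : W → Option S) (bv : W → Bool) (F : DNF W)
  (β : S → Bool) (r : ℕ) (κ : List (S × Bool)) (b : Bool),
  (∀ s b', κ.lookup s = some b' → β s = b') → run st bv F β r κ = some b →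
  (b = true ↔ DNF.Sat (fv st bv β) F)

/-- VAL: evaluation of all unknown bits. -/
def T_VAL : Prop := ∀ (V W S : Type) [DecidableEq S] (t k m r : ℕ) (st : W → Option S)
  (bv : (V → Bool) → W → Bool) (F : S → DNF W) (lv : S → ℕ), k ≤ t → m ≤ t → 1 ≤ r →
  (∀ s, (F s).length ≤ 2 ^ k) → (∀ s, ∀ T ∈ F s, T.length ≤ m) →
  (∀ w, (∃ b, ∀ X, bv X w = b) ∨ ∃ v, ∀ X, bv X w = X v) →
  (∀ s, ∀ T ∈ F s, ∀ p ∈ T, ∀ s', st p.1 = some s' → lv s' < lv s) →
  ∃ G : S → (V → Bool) → Bool, (∀ s, PNP t ((r * (k + 1 + m)) ^ (lv s + 1)) (G s)) ∧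
    ∀ X β, (∀ s, (β s = true ↔ DNF.Sat (fv st (bv X) β) (F s))) →
      (∀ s, ¬ Bad st (bv X) (F s) r) → ∀ s, β s = G s X

/-! ## Part B: the switching lemma for unique stars -/

section

variable {W : Type} [DecidableEq W]

/-- Full values: the list `K` gives the answers at some strings. -/
def gk (bv : W → Bool) (K : List (W × Bool × Bool)) (w : W) : Bool :=
  match K.lookup w with
  | none => bv w
  | some x => x.1

open Classical in
/-- The decoder: `K` is the list of the strings found so far, with answer and junk; an element of the code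
says for each literal of the first satisfied term whether it is new, with answer and junk. -/
noncomputable def dec (bv : W → Bool) (F : DNF W) :
    List (List (Option (Bool × Bool))) → List (W × Bool × Bool) → List (W × Bool × Bool)
  | [], K => K
  | a :: l, K =>
    match F.find? (fun T => decide (Term.Sat (gk bv K) T)) with
    | none => K
    | some T => dec bv F l ((T.zip a).filterMap (fun x => x.2.map fun y => (x.1.1, y)) ++ K)

end

/-- The list of a code. -/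
def lc {r t : ℕ} (α : Fin r → Fin t → Option (Bool × Bool)) : List (List (Option (Bool × Bool))) :=
  List.ofFn fun i => List.ofFn (α i)

/-- The number of entries of a code. -/
def nc {r t : ℕ} (α : Fin r → Fin t → Option (Bool × Bool)) : ℕ :=
  (univ.filter fun p : Fin r × Fin t => (α p.1 p.2).isSome).card

/-- Arrays with unknown entries: `ps ⟨s, x⟩` is the string of the entry `x` of the array `s`; the entry
`a s` is the unknown bit number `s`; `h s` is the array. -/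
structure Arry (I W : Type) (A : I → Type) (ps : (Σ s, A s) → W) (st : (∀ s, A s) → W → Option I)
    (bv : (∀ s, A s → Bool) → W → Bool) : Prop where
  hinj : Function.Injective ps
  hst : ∀ a w s, st a w = some s ↔ w = ps ⟨s, a s⟩
  hbv : ∀ h x, bv h (ps x) = h x.1 x.2
  hoth : ∀ h h' w, (∀ x, w ≠ ps x) → bv h w = bv h' w

/-- ENC: every bad pair of addresses and arrays has a code. -/
def T_ENC : Prop := ∀ (I W : Type) [DecidableEq I] [DecidableEq W] (A : I → Type)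
  (ps : (Σ s, A s) → W) (st : (∀ s, A s) → W → Option I) (bv : (∀ s, A s → Bool) → W → Bool)
  (F : DNF W) (t r : ℕ), Arry I W A ps st bv →
  (∀ T ∈ F, T.length ≤ t ∧ (T.map Prod.fst).Nodup) → ∀ (a : ∀ s, A s) (h : ∀ s, A s → Bool),
  Bad (st a) (bv h) F r → ∃ (h' : ∀ s, A s → Bool) (α : Fin r → Fin t → Option (Bool × Bool)),
    r ≤ nc α ∧ (dec (bv h') F (lc α) []).length = nc α ∧
    ((dec (bv h') F (lc α) []).map Prod.fst).Nodup ∧
    (∀ x ∈ dec (bv h') F (lc α) [], ∃ s, x.1 = ps ⟨s, a s⟩) ∧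
    ∀ s x, h s x = match (dec (bv h') F (lc α) []).lookup (ps ⟨s, x⟩) with
      | none => h' s x
      | some y => y.2

/-- CNT: the number of codes, with weights. -/
def T_CNT : Prop := ∀ (r t M : ℕ), 4 * (r * t) ≤ M → 1 ≤ M →
  (∑ α ∈ univ.filter (fun α : Fin r → Fin t → Option (Bool × Bool) => r ≤ nc α),
    (1 / (M : ℝ)) ^ nc α) * M ^ r ≤ 3 * (4 * (r * t)) ^ r

/-- RAZ: the number of bad pairs. -/
def T_RAZ : Prop := ∀ (I W : Type) [Fintype I] [DecidableEq I] [DecidableEq W] (A : I → Type)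
  [∀ s, Fintype (A s)] [∀ s, DecidableEq (A s)] (ps : (Σ s, A s) → W)
  (st : (∀ s, A s) → W → Option I) (bv : (∀ s, A s → Bool) → W → Bool) (F : DNF W) (t r M : ℕ),
  Arry I W A ps st bv → (∀ T ∈ F, T.length ≤ t ∧ (T.map Prod.fst).Nodup) →
  (∀ s, M ≤ Fintype.card (A s)) → 4 * (r * t) ≤ M → 1 ≤ M →
  (Nat.card {p : (∀ s, A s) × (∀ s, A s → Bool) // Bad (st p.1) (bv p.2) F r} : ℝ) * M ^ r ≤
    3 * (4 * (r * t)) ^ r * (Nat.card (∀ s, A s) * Nat.card (∀ s, A s → Bool))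

/-! ## Part C: formulas and probabilities -/

open Classical in
/-- ACB: being good is a formula. -/
def T_ACB : Prop := ∀ (X W S ι : Type) [DecidableEq S] [Fintype ι] (Z k t r : ℕ)
  (st : W → Option S) (bv : (X → Bool) → W → Bool) (F : ι → DNF W), 2 ≤ Z → t ≤ Z → r ≤ Z →
  2 ^ k ≤ Z → (2 ^ (k + t)) ^ r ≤ Z → Fintype.card ι ≤ Z → (∀ i, (F i).length ≤ 2 ^ k) →
  (∀ i, ∀ T ∈ F i, T.length ≤ t) → (∀ w, (∃ b, ∀ y, bv y w = b) ∨ ∃ v, ∀ y, bv y w = y v) →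
  Cl X Z 12 fun y => decide (∀ i, ¬ Bad st (bv y) (F i) r)

/-- HYB: replacement of the factors of a product distribution. -/
def T_HYB : Prop := ∀ (J : Type) [Fintype J] [DecidableEq J] (T : J → Type) [∀ j, Fintype (T j)]
  (u v : ∀ j, T j → ℝ) (B : (∀ j, T j) → ℝ) (δ : J → ℝ), (∀ j p, 0 ≤ u j p) →
  (∀ j, ∑ p, u j p = 1) → (∀ j p, 0 ≤ v j p) → (∀ j, ∑ p, v j p ≤ 1) → (∀ P, 0 ≤ B P) →
  (∀ j, 0 ≤ δ j) →
  (∀ j P, ∑ p, u j p * B (Function.update P j p) - δ j ≤ ∑ p, v j p * B (Function.update P j p)) →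
  ∑ P, (∏ j, u j (P j)) * B P - ∑ j, δ j ≤ ∑ P, (∏ j, v j (P j)) * B P

open Classical in
/-- BLG: being good does not see a block. -/
def T_BLG : Prop := ∀ (V : ℕ → Verifier) (F : List Bool → DNF (List Bool)) (t : List Bool → ℕ),
  Nf V F t → ∀ n N : ℕ, (2 * N + 2) ^ 2 ≤ 2 ^ (n + 20) ^ 2 → ∀ (D : Dat)
    (X : (Fin n → Bool) → Bool) (a : Ad n N) (h : Ar n N) (P : Bl n N) (p : Bi n N) (b : Bool),
  ∑ c : CB (hl p), m0 (qs (hl p)) (hl p).length (wln (hl p)) c *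
      (if GoodS V F D X (a, h, Function.update P p c) then 1 else 0) -
    (1 / 8) ^ (p.1.1.length + 20) ≤
  ∑ c : CB (hl p), mB (qs (hl p)) (hl p).length (rns (hl p)) (wln (hl p)) b c *
      (if GoodS V F D X (a, h, Function.update P p c) then 1 else 0)

open Classical in
/-- RZG: for given blocks most addresses and arrays are good. -/
def T_RZG : Prop := ∀ (V : ℕ → Verifier) (F : List Bool → DNF (List Bool)) (t : List Bool → ℕ),
  Nf V F t → ∀ n N : ℕ, n ≤ N → 4 * (N * N) ≤ 2 ^ n → ∀ (D : Dat) (X : (Fin n → Bool) → Bool)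
    (P : Bl n N),
  (1 - 2 ^ (N + 1) * 3 * (4 * (N * N) / 2 ^ n) ^ N) * nAA n N ≤
    ∑ a : Ad n N, ∑ h : Ar n N, if GoodS V F D X (a, h, P) then (1 : ℝ) else 0

open Classical in
/-- MUG: the mass of the good seeds. -/
def T_MUG : Prop := ∀ (V : ℕ → Verifier) (F : List Bool → DNF (List Bool)) (t : List Bool → ℕ),
  Nf V F t → ∀ n N : ℕ, n ≤ N → 4 * (N * N) ≤ 2 ^ n → (2 * N + 2) ^ 2 ≤ 2 ^ (n + 20) ^ 2 →
  ∀ (D : Dat) (X : (Fin n → Bool) → Bool),
  1 - (∑ p : Bi n N, (1 / 8 : ℝ) ^ (p.1.1.length + 20) +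
    2 ^ (N + 1) * 3 * (4 * (N * N) / 2 ^ n) ^ N) ≤
  ∑ σ : Se n N, mu σ * (if GoodS V F D X σ then 1 else 0)

/-- MUM: the masses. -/
def T_MUM : Prop := ∀ n N : ℕ, (∀ σ : Se n N, 0 ≤ mu σ) ∧ ∑ σ : Se n N, mu σ ≤ 1 ∧
  ∀ σ : Se n N, mu σ ≠ 0 → okE σ

/-- NUM: estimates. -/
def T_NUM : Prop := ∀ c : ℕ, ∀ᶠ n in atTop, ∀ N : ℕ, N = n ^ (c + 1) + c + 1 → n ≤ N ∧
  4 * (N * N) ≤ 2 ^ n ∧ (2 * N + 2) ^ 2 ≤ 2 ^ (n + 20) ^ 2 ∧
  ∑ p : Bi n N, (1 / 8 : ℝ) ^ (p.1.1.length + 20) +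
    2 ^ (N + 1) * 3 * (4 * (N * N) / 2 ^ n : ℝ) ^ N ≤ (1 / 2) ^ 300

open Classical in
/-- NEW: a short list of seeds. -/
def T_NEW : Prop := ∀ (Ω Y : Type) [Fintype Ω] [Fintype Y] [Nonempty Y] (w : Ω → ℝ)
  (G : Y → Ω → Prop) (M : ℕ),
  (∀ x, 0 ≤ w x) → ∑ x, w x ≤ 1 →
  (∀ y, 1 - (1 / 2) ^ 300 ≤ ∑ x, w x * (if G y x then 1 else 0)) → 1 ≤ M →
  Fintype.card Y ≤ 2 ^ M → ∃ l : Fin M → Ω, (∀ i, w (l i) ≠ 0) ∧
    ∀ y, 100 * (univ.filter fun i => ¬ G y (l i)).card ≤ M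

open Classical in
/-- LST: the list of seeds. -/
def T_LST : Prop := ∀ (V : ℕ → Verifier) (F : List Bool → DNF (List Bool)) (t : List Bool → ℕ),
  Nf V F t → ∀ c : ℕ, ∀ᶠ n in atTop, ∀ N : ℕ, N = n ^ (c + 1) + c + 1 → ∀ D : Dat,
  ∃ l : Fin (2 ^ n + 1) → Se n N, (∀ i, okE (l i)) ∧
    ∀ X : (Fin n → Bool) → Bool,
      100 * (univ.filter fun i => ¬ GoodS V F D X (l i)).card ≤ 2 ^ n + 1

/-! ## Part D: the oracle -/

/-- STR: the strings of the positions. -/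
def T_STR : Prop := Function.Injective str ∧ (∀ p, lvl p < (str p).length) ∧
  (∀ s, ∀ a : Fin s.length → Bool, s.length < (arrp s (List.ofFn a)).length) ∧
  ∀ p : Bx, Sz (p.1.length + 20) (hb p).length (qs (hb p)) (rns (hb p)) (wln (hb p))

/-- ANL: the answer of an instance depends only on shorter strings. -/
def T_ANL : Prop := ∀ (V : ℕ → Verifier) (O O' : List Bool → Bool) (s : List Bool),
  (∀ w : List Bool, w.length < s.length → O w = O' w) → (ans V O s ↔ ans V O' s)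

/-- BAS: the oracle with junk in the arrays. -/
def T_BAS : Prop := (∀ D p, base D (str p) = val D p) ∧ ∀ (D : Dat) (w : List Bool),
  (∀ p, w ≠ str p) → base D w = false

/-- ORC: the values of the oracle. -/
def T_ORC : Prop := ∀ (V : ℕ → Verifier) (D : Dat),
  (∀ w, (∀ s, w ≠ star D s) → orc V D w = base D w) ∧
  (∀ s, (orc V D (star D s) = true ↔ ans V (orc V D) s)) ∧
  ∀ (D' : Dat) (m : ℕ), Agr (fun i => i < m) D D' →
    (∀ p, lvl p < m → orc V D (str p) = orc V D' (str p)) ∧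
    ∀ w : List Bool, w.length ≤ m → orc V D w = orc V D' w

/-- ORL: the oracle of a stage. -/
def T_ORL : Prop := ∀ (V : ℕ → Verifier) (n N : ℕ) (D : Dat) (X : (Fin n → Bool) → Bool)
  (σ : Se n N), n ≤ N → ∀ w : List Bool, w.length ≤ N → orc V (ins n N D X σ) w =
    fv (lst σ.1) (lbv V D X σ) (fun s => open Classical in
      decide (ans V (orc V (ins n N D X σ)) s.1)) w

/-- LIT: the known bits are constants and variables. -/
def T_LIT : Prop := ∀ (V : ℕ → Verifier) (n N : ℕ) (D : Dat) (X : (Fin n → Bool) → Bool) (a : Ad n N)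
  (h : Ar n N) (P : Bl n N) (w : List Bool),
  (∀ (a' : Ad n N) , lbv V D X (a', h, P) w = lbv V D X (a, h, P) w) ∧
  (∀ (p : Bi n N) (u : Fin (2 * (hl p).length) → Bool),
    (∃ b, ∀ c, lbv V D X (a, h, Function.update P p (Function.update (P p).1 u c, (P p).2)) w = b) ∨
    ∃ v, ∀ c, lbv V D X (a, h, Function.update P p (Function.update (P p).1 u c, (P p).2)) w = c v) ∧
  (∀ (p : Bi n N), (∃ b, ∀ c, lbv V D X (a, h, Function.update P p ((P p).1, c)) w = b) ∨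
    ∃ v, ∀ c, lbv V D X (a, h, Function.update P p ((P p).1, c)) w = c v) ∧
  ((∃ b, ∀ X', lbv V D X' (a, h, P) w = b) ∨ ∃ v, ∀ X', lbv V D X' (a, h, P) w = X' v)

/-- ARY: the arrays of a stage. -/
def T_ARY : Prop := ∀ (V : ℕ → Verifier) (n N : ℕ) (D : Dat) (X : (Fin n → Bool) → Bool) (a : Ad n N)
  (P : Bl n N), Arry (Li n N) (List Bool) (fun s => Fin s.1.length → Bool)
    (fun x => arrp x.1.1 (List.ofFn x.2)) lst (fun h => lbv V D X (a, h, P))

/-- DNF: normal forms. -/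
def T_DNF : Prop := ∀ V : ℕ → Verifier, ∃ F t, Nf V F t

/-- INS: the instance strings. -/
def T_INS : Prop := ∀ (V : ℕ → Verifier) (O : List Bool → Bool) (i : ℕ) (x : List Bool),
  ans V O (inst (V i).c i x) ↔ x ∈ (V i).lang O

/-- LVL: the depth of the recursion. -/
def T_LVL : Prop := ∀ c : ℕ, ∃ C : ℕ, ∀ n N : ℕ, 4 ≤ n → N = n ^ (c + 1) + c + 1 →
  ∃ lv : Li n N → ℕ, (∀ s s' : Li n N, s'.1.length ^ 2 < s.1.length → lv s' < lv s) ∧
    ∀ s, lv s ≤ C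

/-- EVO: for good seeds the oracle is in P^NP. -/
def T_EVO : Prop := ∀ (V : ℕ → Verifier) (F : List Bool → DNF (List Bool)) (t : List Bool → ℕ),
  Nf V F t → ∀ c : ℕ, ∃ C : ℕ, ∀ n N : ℕ, 4 ≤ n → N = n ^ (c + 1) + c + 1 →
  ∀ (D : Dat) (σ : Se n N), ∃ G : List Bool → ((Fin n → Bool) → Bool) → Bool,
    (∀ w, PNP (N + 1) (n ^ C + C) (G w)) ∧ ∀ X, GoodS V F D X σ → ∀ w : List Bool, w.length ≤ N →
      orc V (ins n N D X σ) w = G w X

/-- CON: contents of the blocks. -/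
def T_CON : Prop := ∀ (p : Bx) (b : Bool), ∃ c : CB (hb p), okb (hb p) b c

/-- EXO: the exact algorithm. -/
def T_EXO : Prop := ∀ (V : ℕ → Verifier) (f : (n : ℕ) → ((Fin n → Bool) → Bool) → Option Bool)
  (D : Dat), D.Ok f → ∀ s, (ans V (orc V D) s → yesP (orc V D) s = 1) ∧
    (¬ ans V (orc V D) s → yesP (orc V D) s = 0)

/-! ## Part E: quantum algorithms and the construction -/

/-- LOC: an algorithm with short queries sees only short strings; probabilities. -/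
def T_LOC : Prop := ∀ (Q : QAlg), (∀ O, 0 ≤ Q.prob O ∧ Q.prob O ≤ 1) ∧
  ∀ (m : ℕ) (O O' : List Bool → Bool), Q.Short m → (∀ w : List Bool, w.length ≤ m → O w = O' w) →
    Q.prob O = Q.prob O'

/-- SIM: a random choice among `M` relabelled copies of an algorithm. -/
def T_SIM : Prop := ∀ (Q : QAlg) (M : ℕ) (ρ : Fin M → List Bool → List Bool), 1 ≤ M →
  ∃ Q' : QAlg, Q'.T = Q.T ∧ (∀ m m' : ℕ, Q.Short m →
      (∀ i w, w.length ≤ m → (ρ i w).length ≤ m') → Q'.Short m') ∧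
    ∀ O, Q'.prob O = (∑ i, Q.prob fun w => O (ρ i w)) / M

/-- ESY: if an algorithm is always right then the function is easy. -/
def T_ESY : Prop := ∀ (V : ℕ → Verifier) (f : (n : ℕ) → ((Fin n → Bool) → Bool) → Option Bool)
  (Q : ℕ → QAlg) (c : ℕ), (∀ n, (Q n).T ≤ n ^ c + c ∧ (Q n).Short (n ^ c + c)) →
  ∃ C : ℕ, ∀ᶠ n in atTop, ∀ N : ℕ, N = n ^ (c + 1) + c + 1 → ∀ D : Dat,
    (∀ X, ∀ σ : Se n N, okE σ → Right (Q n) (orc V (ins n N D X σ)) (f n X)) →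
    EasyAt n (n ^ C + C) (f n)

/-- STG: one stage. -/
def T_STG : Prop := ∀ (V : ℕ → Verifier) (f : (n : ℕ) → ((Fin n → Bool) → Bool) → Option Bool)
  (Q : ℕ → QAlg) (c : ℕ), (∀ n, (Q n).T ≤ n ^ c + c ∧ (Q n).Short (n ^ c + c)) →
  (∀ c, ∃ᶠ n in atTop, ¬ EasyAt n (n ^ c + c) (f n)) → ∀ D : Dat, D.Ok f → ∀ n₀ : ℕ,
  ∃ n N : ℕ, n₀ ≤ n ∧ n ≤ N ∧ (Q n).Short N ∧ ∃ D' : Dat, D'.Ok f ∧
    Agr (fun i => i < n ∨ N < i) D D' ∧ ¬ Right (Q n) (orc V D') (f n (D'.X n))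

/-- FIN: the theorem. -/
def T_FIN : Prop := ∀ f : (n : ℕ) → ((Fin n → Bool) → Bool) → Option Bool,
  (∀ n, ∃ X, f n X ≠ none) → (∀ c, ∃ᶠ n in atTop, ¬ EasyAt n (n ^ c + c) (f n)) →
  ∀ (V : ℕ → Verifier) (Q : ℕ → ℕ → QAlg),
  (∀ j, ∃ c, ∀ n, (Q j n).T ≤ n ^ c + c ∧ (Q j n).Short (n ^ c + c)) →
  ∃ O : List Bool → Bool, (∀ n, f n (sec O n) ≠ none) ∧
    (∀ i x, (x ∈ (V i).lang O → yesP O (inst (V i).c i x) = 1) ∧
      (x ∉ (V i).lang O → yesP O (inst (V i).c i x) = 0)) ∧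
    ∀ j, ∃ᶠ n in atTop, ¬ Right (Q j n) O (f n (sec O n))

end Pool.Agent.H70.RC
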