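import Pool.Agent.H70.RC.Stmt2
import Pool.Agent.H70.RC.Targets

/-!
# The relativizing consequences of NP ⊆ BQP: targets for classes with provers
-/

set_option autoImplicit false

namespace Pool.Agent.H70.RC

open Finset Filter Pool.Agent.H6.NB Pool.Agent.H78.XQ

/-- SIX: a random choice among `M` algorithms, with relabelled queries; `m` queries. -/
def T_SIX : Prop := ∀ (M m : ℕ) (A : Fin M → QAlg) (ρ : Fin M → List Bool → List Bool), 1 ≤ M →
  (∀ i, (A i).T ≤ m) →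
  ∃ Q' : QAlg, Q'.T = m ∧ (∀ k k' : ℕ, (∀ i, (A i).Short k) →
      (∀ i w, w.length ≤ k → (ρ i w).length ≤ k') → Q'.Short k') ∧
    ∀ O, Q'.prob O = (∑ i, (A i).prob fun w => O (ρ i w)) / M

/-- ESX: if a set of algorithms is always right then the function is easy. -/
def T_ESX : Prop := ∀ (V : ℕ → Verifier) (f : (n : ℕ) → ((Fin n → Bool) → Bool) → Option Bool)
  (R : ℕ → Set QAlg) (c : ℕ), (∀ n, ∀ A ∈ R n, A.T ≤ n ^ c + c ∧ A.Short (n ^ c + c)) →
  ∃ C : ℕ, ∀ᶠ n in atTop, ∀ N : ℕ, N = n ^ (c + 1) + c + 1 → ∀ D : Dat,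
    (∀ X, ∀ σ : Se n N, okE σ → RightP (R n) (orc V (ins n N D X σ)) (f n X)) →
    EasyAtP n (n ^ C + C) (f n)

end Pool.Agent.H70.RC
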