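import Pool.Agent.H70.RC.Targets

/-!
# The arrays of a stage
-/

set_option autoImplicit false

namespace Pool.Agent.H70.RC

open Finset Pool.Agent.H6.NB Pool.Agent.H70.OQ Pool.Agent.H70.EH Pool.Agent.H70.EI Pool.Agent.H78.XQ

theorem arrp_inj (hSTR : T_STR) {s s' : List Bool} {a : Fin s.length → Bool}
    {a' : Fin s'.length → Bool} (h : arrp s (List.ofFn a) = arrp s' (List.ofFn a')) :
    (⟨s, a⟩ : Σ s : List Bool, Fin s.length → Bool) = ⟨s', a'⟩ := by
  have h1 : str (Sum.inr (Sum.inl ⟨s, a⟩)) = str (Sum.inr (Sum.inl ⟨s', a'⟩)) := h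
  have h2 := hSTR.1 h1
  exact Sum.inl.inj (Sum.inr.inj h2)

theorem pf_ARY (hSTR : T_STR) (hBAS : T_BAS) : T_ARY := by
  classical
  intro V n N D X a P
  refine ⟨?_, ?_, ?_, ?_⟩
  · rintro ⟨⟨s, hs⟩, x⟩ ⟨⟨s', hs'⟩, x'⟩ h
    have h1 := arrp_inj hSTR (s := s) (s' := s') h
    obtain ⟨rfl, h2⟩ := Sigma.mk.inj_iff.1 h1
    have h3 : x = x' := eq_of_heq h2
    rw [h3]
  · intro a w s
    unfold lst
    constructor
    · intro h
      by_cases hw : ∃ s : Li n N, w = arrp s.1 (List.ofFn (a s))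
      · rw [dif_pos hw] at h
        have h1 := hw.choose_spec
        rw [Option.some.inj h] at h1
        exact h1
      · rw [dif_neg hw] at h
        exact absurd h (by simp)
    · intro h
      have hw : ∃ s : Li n N, w = arrp s.1 (List.ofFn (a s)) := ⟨s, h⟩
      rw [dif_pos hw]
      have h1 := hw.choose_spec
      have h2 := arrp_inj hSTR (h.symm.trans h1)
      have h3 : s.1 = hw.choose.1 := (Sigma.mk.inj_iff.1 h2).1
      rw [← Subtype.ext h3]
  · intro h x
    obtain ⟨⟨s, hs⟩, x⟩ := x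
    have hstr : str (Sum.inr (Sum.inl ⟨s, x⟩)) = arrp s (List.ofFn x) := rfl
    show lbv V D X (a, h, P) (arrp s (List.ofFn x)) = h ⟨s, hs⟩ x
    unfold lbv
    have hno : ¬ ∃ p : Ps, str p = arrp s (List.ofFn x) ∧ lvl p < n := by
      rintro ⟨p, hp1, hp2⟩
      rw [← hstr] at hp1
      rw [hSTR.1 hp1] at hp2
      have : s.length < n := hp2
      omega
    rw [if_neg hno, ← hstr, hBAS.1]
    simp only [val, ins]
    rw [dif_pos hs]
  · intro h h' w hw
    unfold lbv
    by_cases hp : ∃ p : Ps, str p = w ∧ lvl p < n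
    · rw [if_pos hp, if_pos hp]
    · rw [if_neg hp, if_neg hp]
      by_cases hq : ∃ q : Ps, w = str q
      · obtain ⟨q, rfl⟩ := hq
        rw [hBAS.1, hBAS.1]
        rcases q with x | x | x | x
        · rfl
        · simp only [val, ins]
          have hx : ¬ (n ≤ x.1.length ∧ x.1.length ≤ N) := fun hx =>
            hw ⟨⟨x.1, hx⟩, x.2⟩ rfl
          rw [dif_neg hx, dif_neg hx]
        · rfl
        · rfl
      · push Not at hq
        rw [hBAS.2 _ _ hq, hBAS.2 _ _ hq]

end Pool.Agent.H70.RC
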