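import Pool.Agent.H70.RC.Targets

/-!
# The code of a bad pair
-/

set_option autoImplicit false

namespace Pool.Agent.H70.RC

open Finset

section look

variable {α β : Type} [DecidableEq α]

theorem lk_none {l : List (α × β)} {k : α} : l.lookup k = none ↔ ∀ p ∈ l, p.1 ≠ k := by
  rw [List.lookup_eq_none_iff]
  constructor
  · intro h p hp e
    have := h p hp
    rw [bne_iff_ne] at this
    exact this e.symm
  · intro h p hp
    rw [bne_iff_ne]
    exact fun e => h p hp e.symm

theorem lk_mem {l : List (α × β)} {k : α} {b : β} (h : l.lookup k = some b) : (k, b) ∈ l := by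
  obtain ⟨l₁, l₂, h1, _⟩ := List.lookup_eq_some_iff.1 h
  rw [h1]
  simp

theorem lk_fun {l : List (α × β)} {k : α} {b : β} (h : ∀ p ∈ l, p.1 = k → p.2 = b)
    (h' : ∃ p ∈ l, p.1 = k) : l.lookup k = some b := by
  rcases hl : l.lookup k with _ | b'
  · obtain ⟨p, hp, e⟩ := h'
    exact absurd e (lk_none.1 hl p hp)
  · have h1 : b' = b := h _ (lk_mem hl) rfl
    rw [h1]

theorem lk_nodup {l : List (α × β)} {k : α} {b : β} (h : (l.map Prod.fst).Nodup)
    (hm : (k, b) ∈ l) : l.lookup k = some b := by
  refine lk_fun (fun p hp e => ?_) ⟨_, hm, rfl⟩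
  have h1 := List.inj_on_of_nodup_map h hp hm e
  rw [h1]

theorem find_eq {X : Type} {P Q : X → Bool} {l : List X} {T : X} (h : l.find? P = some T)
    (hT : Q T = true) (hQ : ∀ x ∈ l, Q x = true → P x = true) : l.find? Q = some T := by
  induction l with
  | nil => simp at h
  | cons x l ih =>
    by_cases hx : P x = true
    · rw [List.find?_cons_of_pos hx] at h
      cases h
      rw [List.find?_cons_of_pos hT]
    · have hx' : ¬ Q x = true := fun e => hx (hQ x (List.mem_cons_self) e)
      rw [List.find?_cons_of_neg hx] at h
      rw [List.find?_cons_of_neg hx']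
      exact ih h fun y hy => hQ y (List.mem_cons_of_mem _ hy)

theorem zipfm {W : Type} (T : List (W × Bool)) (new : W × Bool → Bool) (g : W × Bool → Bool × Bool)
    (l : List (Option (Bool × Bool))) :
    (T.zip (T.map (fun p => if new p then some (g p) else none) ++ l)).filterMap
      (fun x => x.2.map fun y => (x.1.1, y)) = (T.filter new).map fun p => (p.1, g p) := by
  induction T with
  | nil => simp
  | cons p T ih =>
    rw [List.map_cons, List.cons_append, List.zip_cons_cons, List.filterMap_cons]
    by_cases hp : new p = true
    · simp only [hp, if_true, Option.map_some, ih, List.filter_cons_of_pos, List.map_cons]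
    · simp only [hp, Bool.false_eq_true, if_false, Option.map_none, ih]
      rw [List.filter_cons_of_neg hp]

theorem cntfm {W : Type} (T : List (W × Bool)) (new : W × Bool → Bool) (g : W × Bool → Bool × Bool)
    (k : ℕ) : (T.map (fun p => if new p then some (g p) else none) ++ List.replicate k none).countP
      Option.isSome = (T.filter new).length := by
  rw [List.countP_append]
  have h0 : (List.replicate k (none : Option (Bool × Bool))).countP Option.isSome = 0 := by
    rw [List.countP_replicate]
    simp
  rw [h0, Nat.add_zero]
  induction T with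
  | nil => simp
  | cons p T ih =>
    by_cases hp : new p = true
    · simp [hp, ih]
    · simp [hp, ih]

end look

section enc

variable {I W : Type} [DecidableEq I] [DecidableEq W] {A : I → Type} {ps : (Σ s, A s) → W}
  {st : (∀ s, A s) → W → Option I} {bv : (∀ s, A s → Bool) → W → Bool} {F : DNF W} {t : ℕ}

theorem enc_aux (hA : Arry I W A ps st bv) (hF : ∀ T ∈ F, T.length ≤ t ∧ (T.map Prod.fst).Nodup)
    (a : ∀ s, A s) (h : ∀ s, A s → Bool) (β : I → Bool) : ∀ (r : ℕ) (κ : List (I × Bool)),
    (∀ s b, κ.lookup s = some b → β s = b) → run (st a) (bv h) F β r κ = none →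
    ∃ (αs : List (List (Option (Bool × Bool)))) (E : List (W × Bool)) (N : List (W × Bool × Bool)),
      αs.length = r ∧ (∀ l ∈ αs, l.length = t) ∧
      (αs.map fun l => l.countP Option.isSome).sum = N.length ∧ r ≤ N.length ∧
      (N.map Prod.fst).Nodup ∧
      (∀ x ∈ N, ∃ s, x.1 = ps ⟨s, a s⟩ ∧ κ.lookup s = none ∧ x.2.2 = h s (a s)) ∧
      (E.map Prod.fst).Nodup ∧ (∀ w, w ∈ E.map Prod.fst ↔ w ∈ N.map Prod.fst) ∧
      ∀ (h' : ∀ s, A s → Bool) (K : List (W × Bool × Bool)),
        (∀ w, st a w = none → bv h' w = bv h w) → (∀ x ∈ E, bv h' x.1 = x.2) →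
        (∀ w, st a w = none → K.lookup w = none) →
        (∀ w s, st a w = some s → (K.lookup w).map Prod.fst = κ.lookup s) →
        dec (bv h') F αs K = N ++ K := by
  classical
  intro r
  induction r with
  | zero =>
    intro κ _ _
    refine ⟨[], [], [], rfl, by simp, by simp, by simp, by simp, by simp, by simp, by simp, ?_⟩
    intro h' K _ _ _ _
    rfl
  | succ r ih =>
    intro κ hκ hrun
    rcases hf : F.find? (fun T => decide (psat (pv (st a) (bv h) κ) T)) with _ | T
    · unfold run at hrun
      rw [hf] at hrun
      simp at hrun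
    obtain ⟨κ', hκ'⟩ : ∃ κ', κ' =
      (T.filterMap fun p => (st a p.1).map fun s => (s, β s)) ++ κ := ⟨_, rfl⟩
    have hTF : T ∈ F := List.mem_of_find?_eq_some hf
    have hps : psat (pv (st a) (bv h) κ) T := by
      have := List.find?_some hf
      simpa using this
    have hns : ¬ Term.Sat (fv (st a) (bv h) β) T ∧ run (st a) (bv h) F β r κ' = none := by
      unfold run at hrun
      rw [hf] at hrun
      simp only at hrun
      by_cases hs : Term.Sat (fv (st a) (bv h) β) T
      · rw [if_pos hs] at hrun
        exact absurd hrun (by simp)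
      · rw [if_neg hs] at hrun
        refine ⟨hs, ?_⟩
        rw [hκ']
        exact hrun
    obtain ⟨hns, hrun'⟩ := hns
    have hkey : ∀ w s, st a w = some s → w = ps ⟨s, a s⟩ := fun w s e => (hA.hst a w s).1 e
    have hinj : ∀ s s', ps ⟨s, a s⟩ = ps ⟨s', a s'⟩ → s = s' := by
      intro s s' e
      have := hA.hinj e
      exact congrArg Sigma.fst this
    -- lookups in the new list
    have k1 : ∀ p ∈ T, ∀ s, st a p.1 = some s → κ'.lookup s = some (β s) := by
      intro p hp s hs
      have : (T.filterMap fun p => (st a p.1).map fun s => (s, β s)).lookup s = some (β s) := by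
        refine lk_fun (fun q hq e => ?_) ⟨(s, β s), ?_, rfl⟩
        · rw [List.mem_filterMap] at hq
          obtain ⟨p', _, hp'⟩ := hq
          rcases hs' : st a p'.1 with _ | s'
          · rw [hs'] at hp'; simp at hp'
          · rw [hs'] at hp'
            simp only [Option.map_some, Option.some.injEq] at hp'
            rw [← hp'] at e ⊢
            simp only at e ⊢
            rw [e]
        · rw [List.mem_filterMap]
          exact ⟨p, hp, by rw [hs]; rfl⟩
      rw [hκ', List.lookup_append, this]
      rfl
    have k2 : ∀ s, (∀ p ∈ T, st a p.1 ≠ some s) → κ'.lookup s = κ.lookup s := by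
      intro s hs
      have : (T.filterMap fun p => (st a p.1).map fun s => (s, β s)).lookup s = none := by
        rw [lk_none]
        intro q hq e
        rw [List.mem_filterMap] at hq
        obtain ⟨p', hp'T, hp'⟩ := hq
        rcases hs' : st a p'.1 with _ | s'
        · rw [hs'] at hp'; simp at hp'
        · rw [hs'] at hp'
          simp only [Option.map_some, Option.some.injEq] at hp'
          rw [← hp'] at e
          simp only at e
          rw [e] at hs'
          exact hs p' hp'T hs'
      rw [hκ', List.lookup_append, this]
      rfl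
    have k3 : ∀ s b, κ'.lookup s = some b → β s = b := by
      intro s b hb
      by_cases hs : ∀ p ∈ T, st a p.1 ≠ some s
      · rw [k2 s hs] at hb
        exact hκ s b hb
      · push Not at hs
        obtain ⟨p, hp, hps⟩ := hs
        rw [k1 p hp s hps] at hb
        exact Option.some.inj hb
    obtain ⟨αs', E', N', i1, i2, i3, i4, i5, i6, i7, i8, i9⟩ := ih κ' k3 hrun'
    -- the new literals
    obtain ⟨new, hnew⟩ : ∃ new : W × Bool → Bool, new = fun p =>
      decide (∃ s, st a p.1 = some s ∧ κ.lookup s = none) := ⟨_, rfl⟩
    have hnew' : ∀ p, new p = true ↔ ∃ s, st a p.1 = some s ∧ κ.lookup s = none := by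
      intro p
      rw [hnew]
      simp
    obtain ⟨g, hg⟩ : ∃ g : W × Bool → Bool × Bool, g = fun p =>
      (match st a p.1 with
        | some s => β s
        | none => false, bv h p.1) := ⟨_, rfl⟩
    have hg1 : ∀ p s, st a p.1 = some s → g p = (β s, h s (a s)) := by
      intro p s hs
      have h1 : bv h p.1 = h s (a s) := by
        rw [hkey p.1 s hs]
        exact hA.hbv h ⟨s, a s⟩
      rw [hg]
      simp only [hs, h1]
    obtain ⟨α0, hα0⟩ : ∃ α0 : List (Option (Bool × Bool)), α0 =
      T.map (fun p => if new p then some (g p) else none) ++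
        List.replicate (t - T.length) none := ⟨_, rfl⟩
    obtain ⟨N0, hN0⟩ : ∃ N0 : List (W × Bool × Bool), N0 =
      (T.filter new).map fun p => (p.1, g p) := ⟨_, rfl⟩
    obtain ⟨E0, hE0⟩ : ∃ E0 : List (W × Bool), E0 = T.filter new := ⟨_, rfl⟩
    have hN0len : N0.length = (T.filter new).length := by rw [hN0, List.length_map]
    have hN0key : N0.map Prod.fst = E0.map Prod.fst := by
      rw [hN0, hE0, List.map_map]
      rfl
    have hE0nd : (E0.map Prod.fst).Nodup := by
      rw [hE0]
      exact List.Nodup.sublist ((List.filter_sublist).map _) (hF T hTF).2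
    have hN0mem : ∀ x ∈ N0, ∃ s, x.1 = ps ⟨s, a s⟩ ∧ κ.lookup s = none ∧
        x.2 = (β s, h s (a s)) ∧ κ'.lookup s = some (β s) := by
      intro x hx
      rw [hN0, List.mem_map] at hx
      obtain ⟨p, hp, rfl⟩ := hx
      rw [List.mem_filter, hnew'] at hp
      obtain ⟨hpT, s, hs, hks⟩ := hp
      exact ⟨s, hkey p.1 s hs, hks, hg1 p s hs, k1 p hpT s hs⟩
    -- at least one new literal
    have hone : 1 ≤ N0.length := by
      rw [hN0len]
      have : ∃ p ∈ T, new p = true := by
        by_contra hno
        push Not at hno
        apply hns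
        intro p hp
        have h1 := hps p hp
        have h2 := hno p hp
        rw [Ne, hnew'] at h2
        push Not at h2
        unfold pv at h1
        unfold fv
        rcases hs : st a p.1 with _ | s
        · rw [hs] at h1
          simpa using h1
        · rw [hs] at h1
          simp only at h1 ⊢
          rcases h1 with h1 | h1
          · exact absurd h1 (h2 s hs)
          · exact hκ s p.2 h1
      obtain ⟨p, hp, hn⟩ := this
      exact List.length_pos_of_mem (List.mem_filter.2 ⟨hp, hn⟩)
    refine ⟨α0 :: αs', E0 ++ E', N' ++ N0, ?_, ?_, ?_, ?_, ?_, ?_, ?_, ?_, ?_⟩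
    · rw [List.length_cons, i1]
    · intro l hl
      rw [List.mem_cons] at hl
      rcases hl with rfl | hl
      · rw [hα0, List.length_append, List.length_map, List.length_replicate]
        have := (hF T hTF).1
        omega
      · exact i2 l hl
    · rw [List.map_cons, List.sum_cons, i3, hα0, cntfm, List.length_append, hN0len]
      omega
    · rw [List.length_append]
      omega
    · rw [List.map_append, List.nodup_append]
      refine ⟨i5, by rw [hN0key]; exact hE0nd, ?_⟩
      intro w hw w' hw' e
      rw [List.mem_map] at hw hw'
      obtain ⟨x, hx, rfl⟩ := hw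
      obtain ⟨x', hx', rfl⟩ := hw'
      obtain ⟨s, e1, e2, _⟩ := i6 x hx
      obtain ⟨s', e1', _, _, e4⟩ := hN0mem x' hx'
      rw [e1, e1'] at e
      rw [hinj s s' e] at e2
      rw [e2] at e4
      exact absurd e4 (by simp)
    · intro x hx
      rw [List.mem_append] at hx
      rcases hx with hx | hx
      · obtain ⟨s, e1, e2, e3⟩ := i6 x hx
        refine ⟨s, e1, ?_, e3⟩
        by_cases hs : ∀ p ∈ T, st a p.1 ≠ some s
        · rw [← k2 s hs]; exact e2
        · push Not at hs
          obtain ⟨p, hp, hps⟩ := hs
          rw [k1 p hp s hps] at e2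
          exact absurd e2 (by simp)
      · obtain ⟨s, e1, e2, e3, _⟩ := hN0mem x hx
        exact ⟨s, e1, e2, by rw [e3]⟩
    · rw [List.map_append, List.nodup_append]
      refine ⟨hE0nd, i7, ?_⟩
      intro w hw w' hw' e
      rw [← hN0key] at hw
      rw [i8] at hw'
      rw [List.mem_map] at hw hw'
      obtain ⟨x', hx', rfl⟩ := hw
      obtain ⟨x, hx, rfl⟩ := hw'
      obtain ⟨s, e1, e2, _⟩ := i6 x hx
      obtain ⟨s', e1', _, _, e4⟩ := hN0mem x' hx'
      rw [e1, e1'] at e
      rw [← hinj s' s e] at e2
      rw [e2] at e4
      exact absurd e4 (by simp)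
    · intro w
      rw [List.map_append, List.map_append, List.mem_append, List.mem_append, i8 w, hN0key]
      exact or_comm
    · intro h' K c1 c2 c3 c4
      -- the first satisfied term
      have hfind : F.find? (fun T => decide (Term.Sat (gk (bv h') K) T)) = some T := by
        refine find_eq hf ?_ ?_
        · rw [decide_eq_true_iff]
          intro p hp
          have h1 := hps p hp
          unfold pv at h1
          unfold gk
          rcases hs : st a p.1 with _ | s
          · rw [hs] at h1
            rw [c3 p.1 hs]
            simp only at h1 ⊢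
            rw [c1 p.1 hs]
            simpa using h1
          · rw [hs] at h1
            simp only at h1
            have h2 := c4 p.1 s hs
            rcases hk : κ.lookup s with _ | b
            · rw [hk] at h2
              rcases hK : K.lookup p.1 with _ | y
              · simp only
                refine c2 p ?_
                rw [List.mem_append, hE0, List.mem_filter]
                exact Or.inl ⟨hp, (hnew' p).2 ⟨s, hs, hk⟩⟩
              · rw [hK] at h2
                simp at h2
            · rw [hk] at h1 h2
              rcases hK : K.lookup p.1 with _ | y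
              · rw [hK] at h2
                simp at h2
              · rw [hK] at h2
                simp only [Option.map_some, Option.some.injEq] at h2 ⊢
                rw [h2]
                simpa using h1
        · intro T' _ hT'
          rw [decide_eq_true_iff] at hT' ⊢
          intro p hp
          have h1 := hT' p hp
          unfold gk at h1
          unfold pv
          rcases hs : st a p.1 with _ | s
          · simp only
            rw [c3 p.1 hs] at h1
            simp only at h1
            rw [c1 p.1 hs] at h1
            right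
            rw [h1]
          · simp only
            have h2 := c4 p.1 s hs
            rcases hk : κ.lookup s with _ | b
            · exact Or.inl rfl
            · rw [hk] at h2
              rcases hK : K.lookup p.1 with _ | y
              · rw [hK] at h2
                simp at h2
              · rw [hK] at h1 h2
                simp only [Option.map_some, Option.some.injEq] at h1 h2
                right
                rw [← h2, h1]
      have hstep : dec (bv h') F (α0 :: αs') K = dec (bv h') F αs' (N0 ++ K) := by
        conv_lhs => unfold dec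
        rw [hfind]
        simp only
        rw [hα0, zipfm, ← hN0]
      rw [hstep, i9 h' (N0 ++ K) c1 (fun x hx => c2 x (List.mem_append_right _ hx)) ?_ ?_,
        List.append_assoc]
      · intro w hw
        rw [List.lookup_append, c3 w hw, Option.or_none, lk_none]
        intro x hx e
        obtain ⟨s, e1, _⟩ := hN0mem x hx
        rw [← e, (hA.hst a x.1 s).2 e1] at hw
        exact absurd hw (by simp)
      · intro w s hw
        have hwk := hkey w s hw
        by_cases hin : ∃ p ∈ T, p.1 = w
        · obtain ⟨p, hp, hpw⟩ := hin
          rw [k1 p hp s (by rw [hpw]; exact hw)]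
          rcases hk : κ.lookup s with _ | b
          · have h1 : N0.lookup w = some (β s, h s (a s)) := by
              refine lk_fun (fun x hx e => ?_) ⟨(p.1, g p), ?_, hpw⟩
              · obtain ⟨s', e1, _, e3, _⟩ := hN0mem x hx
                rw [e, hwk] at e1
                rw [e3, hinj s s' e1]
              · rw [hN0, List.mem_map]
                refine ⟨p, ?_, rfl⟩
                rw [List.mem_filter]
                exact ⟨hp, (hnew' p).2 ⟨s, by rw [hpw]; exact hw, hk⟩⟩
            rw [List.lookup_append, h1]
            rfl
          · have h1 : N0.lookup w = none := by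
              rw [lk_none]
              intro x hx e
              obtain ⟨s', e1, e2, _⟩ := hN0mem x hx
              rw [e, hwk] at e1
              rw [← hinj s s' e1, hk] at e2
              exact absurd e2 (by simp)
            rw [List.lookup_append, h1, Option.none_or, c4 w s hw, hk, hκ s b hk]
        · push Not at hin
          have h1 : N0.lookup w = none := by
            rw [lk_none]
            intro x hx e
            rw [hN0, List.mem_map] at hx
            obtain ⟨p, hp, rfl⟩ := hx
            rw [List.mem_filter] at hp
            exact hin p hp.1 e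
          rw [List.lookup_append, h1, Option.none_or, c4 w s hw, k2 s]
          intro p hp e
          exact hin p hp (by rw [hkey p.1 s e, hwk])

end enc

theorem countP_ofFn {X : Type} : ∀ (t : ℕ) (g : Fin t → Option X),
    (List.ofFn g).countP Option.isSome = ∑ j, if (g j).isSome then 1 else 0 := by
  intro t
  induction t with
  | zero => intro g; simp
  | succ t ih =>
    intro g
    rw [List.ofFn_succ, List.countP_cons, Fin.sum_univ_succ, ih, add_comm]

theorem nc_eq {r t : ℕ} (α : Fin r → Fin t → Option (Bool × Bool)) :
    nc α = ((lc α).map fun l => l.countP Option.isSome).sum := by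
  unfold nc lc
  rw [List.map_ofFn, List.sum_ofFn, card_filter, Fintype.sum_prod_type]
  refine sum_congr rfl fun i _ => ?_
  simp only [Function.comp]
  rw [countP_ofFn]

theorem pf_ENC : T_ENC := by
  intro I W _ _ A ps st bv F t r hA hF a h hbad
  obtain ⟨β, hβ⟩ := hbad
  obtain ⟨αs, E, N, i1, i2, i3, i4, i5, i6, i7, i8, i9⟩ := enc_aux hA hF a h β r [] (by simp) hβ
  obtain ⟨h', hh'⟩ : ∃ h' : ∀ s, A s → Bool, h' = fun s x =>
    match E.lookup (ps ⟨s, x⟩) with
      | some b => b
      | none => h s x := ⟨_, rfl⟩
  have hEk : ∀ w, w ∈ E.map Prod.fst → ∃ s, w = ps ⟨s, a s⟩ := by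
    intro w hw
    rw [i8, List.mem_map] at hw
    obtain ⟨x, hx, rfl⟩ := hw
    obtain ⟨s, e, _⟩ := i6 x hx
    exact ⟨s, e⟩
  have hno : ∀ w, w ∉ E.map Prod.fst → E.lookup w = none := by
    intro w hw
    rw [lk_none]
    intro p hp e
    exact hw (List.mem_map.2 ⟨p, hp, e⟩)
  have c1 : ∀ w, st a w = none → bv h' w = bv h w := by
    intro w hw
    by_cases hp : ∃ x, w = ps x
    · obtain ⟨x, rfl⟩ := hp
      rw [hA.hbv, hA.hbv, hh']
      have : E.lookup (ps ⟨x.1, x.2⟩) = none := by
        refine hno _ fun hin => ?_
        obtain ⟨s, e⟩ := hEk _ hin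
        have e2 : ps x = ps ⟨s, a s⟩ := e
        rw [(hA.hst a (ps x) s).2 e2] at hw
        exact absurd hw (by simp)
      simp only [this]
    · push Not at hp
      exact hA.hoth h' h w hp
  have c2 : ∀ x ∈ E, bv h' x.1 = x.2 := by
    intro x hx
    have hk : x.1 ∈ E.map Prod.fst := List.mem_map.2 ⟨x, hx, rfl⟩
    obtain ⟨s, e⟩ := hEk _ hk
    have hl : E.lookup x.1 = some x.2 := lk_nodup i7 hx
    rw [e] at hl ⊢
    rw [hA.hbv, hh']
    simp only [hl]
  have hdec := i9 h' [] c1 c2 (by simp) (by simp)
  rw [List.append_nil] at hdec
  obtain ⟨α, hα⟩ : ∃ α : Fin r → Fin t → Option (Bool × Bool), lc α = αs := by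
    refine ⟨fun i j => (αs.getD i []).getD j none, ?_⟩
    unfold lc
    refine List.ext_getElem (by simp [i1]) fun i h1 h2 => ?_
    rw [List.getElem_ofFn]
    have hl : (αs[i]).length = t := i2 _ (List.getElem_mem h2)
    refine List.ext_getElem (by simp [hl]) fun j h3 h4 => ?_
    rw [List.getElem_ofFn]
    simp only
    rw [List.getD_eq_getElem _ _ h2, List.getD_eq_getElem _ _ h4]
  have hnc : nc α = N.length := by rw [nc_eq, hα, i3]
  refine ⟨h', α, ?_, ?_, ?_, ?_, ?_⟩
  · rw [hnc]; exact i4
  · rw [hα, hdec, hnc]
  · rw [hα, hdec]; exact i5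
  · rw [hα, hdec]
    intro x hx
    obtain ⟨s, e, _⟩ := i6 x hx
    exact ⟨s, e⟩
  · rw [hα, hdec]
    intro s x
    rcases hl : N.lookup (ps ⟨s, x⟩) with _ | y
    · simp only
      rw [hh']
      have : E.lookup (ps ⟨s, x⟩) = none := by
        refine hno _ fun hin => ?_
        rw [i8, List.mem_map] at hin
        obtain ⟨z, hz, e⟩ := hin
        exact lk_none.1 hl z hz e
      simp only [this]
    · simp only
      obtain ⟨s', e1, _, e3⟩ := i6 _ (lk_mem hl)
      have e4 := hA.hinj e1
      obtain ⟨rfl, e5⟩ := Sigma.mk.inj_iff.1 e4
      rw [eq_of_heq e5]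
      exact e3.symm

end Pool.Agent.H70.RC
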