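import Pool.Agent.H70.RC.Fin2

/-!
# The relativizing consequences of NP ⊆ BQP: the theorem
-/

set_option autoImplicit false

namespace Pool.Agent.H70.RC

open Finset Filter
open Pool.Agent.H6.NB (Verifier QAlg inst)

/-- FNX: the theorem. -/
def T_FNX : Prop := ∀ f : (n : ℕ) → ((Fin n → Bool) → Bool) → Option Bool,
  (∀ n, ∃ X, f n X ≠ none) →
  ∀ (V : ℕ → Verifier) (Q : ℕ → ℕ → QAlg) (R : ℕ → ℕ → Set QAlg) (S : ℕ → Set ℕ),
  (∀ j, ∃ c, ∀ n, (Q j n).T ≤ n ^ c + c ∧ (Q j n).Short (n ^ c + c)) →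
  (∀ j, ∃ c, ∀ n, ∀ A ∈ R j n, A.T ≤ n ^ c + c ∧ A.Short (n ^ c + c)) →
  ∃ O : List Bool → Bool, (∀ n, f n (sec O n) ≠ none) ∧
    (∀ i x, (x ∈ (V i).lang O → yesP O (inst (V i).c i x) = 1) ∧
      (x ∉ (V i).lang O → yesP O (inst (V i).c i x) = 0)) ∧
    (∀ j, (∀ᶠ n in atTop, n ∈ S j → Right (Q j n) O (f n (sec O n))) →
      ∃ c, ∀ᶠ n in atTop, n ∈ S j → EasyAt n (n ^ c + c) (f n)) ∧
    (∀ j, (∀ᶠ n in atTop, n ∈ S j → RightP (R j n) O (f n (sec O n))) →
      ∃ c, ∀ᶠ n in atTop, n ∈ S j → EasyAtP n (n ^ c + c) (f n))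

theorem pf_FNX (hESY : T_ESY) (hESX : T_ESX) (hLOC : T_LOC) (hORC : T_ORC) (hBAS : T_BAS)
    (hCON : T_CON) (hEXO : T_EXO) (hINS : Pool.Agent.H70.RC.T_INS) (hSTR : T_STR) : T_FNX := by
  classical
  intro f hf V Q R S hQ hR
  choose cQ hcQ using hQ
  choose cR hcR using hR
  have a1 : ∀ j n O O' a, (∀ w : List Bool, w.length ≤
        n ^ (if j % 2 = 0 then cQ (j / 2) else cR (j / 2)) +
          (if j % 2 = 0 then cQ (j / 2) else cR (j / 2)) → O w = O' w) →
      (if j % 2 = 0 then Right (Q (j / 2) n) O a else RightP (R (j / 2) n) O a) →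
      (if j % 2 = 0 then Right (Q (j / 2) n) O' a else RightP (R (j / 2) n) O' a) := by
    intro j n O O' a hOO h
    by_cases hj : j % 2 = 0
    · simp only [if_pos hj] at h hOO ⊢
      have hp := (hLOC (Q (j / 2) n)).2 _ O O' (hcQ (j / 2) n).2 hOO
      unfold Right at h ⊢
      rw [← hp]
      exact h
    · simp only [if_neg hj] at h hOO ⊢
      have hp : ∀ A ∈ R (j / 2) n, A.prob O = A.prob O' := fun A hA =>
        (hLOC A).2 _ O O' (hcR (j / 2) n A hA).2 hOO
      refine ⟨fun ha => ?_, fun ha A hA => ?_⟩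
      · obtain ⟨A, hA, hA2⟩ := h.1 ha
        exact ⟨A, hA, by rw [← hp A hA]; exact hA2⟩
      · rw [← hp A hA]
        exact h.2 ha A hA
  have a2 : ∀ (j n : ℕ) (O : List Bool → Bool),
      (if j % 2 = 0 then Right (Q (j / 2) n) O none else RightP (R (j / 2) n) O none) := by
    intro j n O
    by_cases hj : j % 2 = 0
    · simp only [if_pos hj]
      exact ⟨fun h => absurd h (by simp), fun h => absurd h (by simp)⟩
    · simp only [if_neg hj]
      exact ⟨fun h => absurd h (by simp), fun h => absurd h (by simp)⟩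
  have a3 : ∀ j, ∃ C : ℕ, ∀ᶠ n in atTop, ∀ N : ℕ,
      N = n ^ ((if j % 2 = 0 then cQ (j / 2) else cR (j / 2)) + 1) +
        (if j % 2 = 0 then cQ (j / 2) else cR (j / 2)) + 1 → ∀ D : Dat,
      (∀ X, ∀ σ : Se n N, okE σ → (if j % 2 = 0 then
        Right (Q (j / 2) n) (orc V (ins n N D X σ)) (f n X) else
        RightP (R (j / 2) n) (orc V (ins n N D X σ)) (f n X))) →
      (if j % 2 = 0 then EasyAt n (n ^ C + C) (f n) else EasyAtP n (n ^ C + C) (f n)) := by
    intro j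
    by_cases hj : j % 2 = 0
    · simp only [if_pos hj]
      exact hESY V f (Q (j / 2)) (cQ (j / 2)) (hcQ (j / 2))
    · simp only [if_neg hj]
      exact hESX V f (R (j / 2)) (cR (j / 2)) (hcR (j / 2))
  obtain ⟨O, h1, h2, h3⟩ := fin_gen hORC hBAS hCON hEXO hINS hSTR f hf V
    (fun j n O a => if j % 2 = 0 then Right (Q (j / 2) n) O a else RightP (R (j / 2) n) O a)
    (fun j => if j % 2 = 0 then cQ (j / 2) else cR (j / 2))
    (fun j n m => if j % 2 = 0 then EasyAt n m (f n) else EasyAtP n m (f n))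
    (fun j => S (j / 2)) a1 a2 a3
  refine ⟨O, h1, h2, fun j hj => ?_, fun j hj => ?_⟩
  · have h4 := h3 (2 * j)
    have e1 : (2 * j) % 2 = 0 := by omega
    have e2 : (2 * j) / 2 = j := by omega
    simp only [e1, e2, if_true] at h4
    by_contra h
    push Not at h
    have h5 := h4 h
    exact h5 (hj.mono fun n hn h6 => h6.2 (hn h6.1))
  · have h4 := h3 (2 * j + 1)
    have e1 : ¬ (2 * j + 1) % 2 = 0 := by omega
    have e2 : (2 * j + 1) / 2 = j := by omega
    simp only [if_neg e1, e2] at h4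
    by_contra h
    push Not at h
    have h5 := h4 h
    exact h5 (hj.mono fun n hn h6 => h6.2 (hn h6.1))

end Pool.Agent.H70.RC
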