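import Pool.Agent.H70.RC.Targets

/-!
# The known bits are constants and variables
-/

set_option autoImplicit false

namespace Pool.Agent.H70.RC

open Finset Pool.Agent.H6.NB Pool.Agent.H70.OQ Pool.Agent.H70.EH Pool.Agent.H70.EI Pool.Agent.H78.XQ

/-- The values of the oracle with junk as functions of a parameter. -/
theorem base_par (hBAS : T_BAS) {Y : Type} (D : (Y → Bool) → Dat) (w : List Bool)
    (h : ∀ p : Ps, (∃ b, ∀ y, val (D y) p = b) ∨ ∃ v, ∀ y, val (D y) p = y v) :
    (∃ b, ∀ y, base (D y) w = b) ∨ ∃ v, ∀ y, base (D y) w = y v := by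
  by_cases hw : ∃ p, w = str p
  · obtain ⟨p, rfl⟩ := hw
    rcases h p with ⟨b, hb⟩ | ⟨v, hv⟩
    · exact Or.inl ⟨b, fun y => by rw [hBAS.1, hb]⟩
    · exact Or.inr ⟨v, fun y => by rw [hBAS.1, hv]⟩
  · push Not at hw
    exact Or.inl ⟨false, fun y => hBAS.2 _ _ hw⟩

theorem pf_LIT (hBAS : T_BAS) : T_LIT := by
  classical
  intro V n N D X a h P w
  refine ⟨fun a' => ?_, fun p u => ?_, fun p => ?_, ?_⟩
  · unfold lbv
    by_cases hp : ∃ p : Ps, str p = w ∧ lvl p < n
    · rw [if_pos hp, if_pos hp]
    · rw [if_neg hp, if_neg hp]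
      unfold base
      by_cases hq : ∃ p : Ps, str p = w
      · rw [dif_pos hq, dif_pos hq]
        rcases hq.choose with x | x | x | x <;> rfl
      · rw [dif_neg hq, dif_neg hq]
  · unfold lbv
    by_cases hp : ∃ p : Ps, str p = w ∧ lvl p < n
    · left
      exact ⟨orc V D w, fun c => by rw [if_pos hp]⟩
    · simp only [if_neg hp]
      refine base_par (Y := VV (qs (hl p))) hBAS (fun c => ins n N D X (a, h,
        Function.update P p (Function.update (P p).1 u c, (P p).2))) w fun q => ?_
      rcases q with x | x | x | x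
      · exact Or.inl ⟨Function.update D.X n X x.1 x.2, fun y => rfl⟩
      · exact Or.inl ⟨val (ins n N D X (a, h, P)) (Sum.inr (Sum.inl x)), fun y => rfl⟩
      · by_cases hx : n ≤ x.1.1.length ∧ x.1.1.length ≤ N
        · by_cases hxp : (⟨⟨x.1.1, hx⟩, x.1.2⟩ : Bi n N) = p
          · obtain ⟨⟨s, j⟩, u', v'⟩ := x
            subst hxp
            by_cases hu : u' = u
            · right
              refine ⟨v', fun y => ?_⟩
              simp only [val, ins]
              rw [dif_pos hx, Function.update_self, hu]
              simp only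
              rw [Function.update_self]
            · left
              refine ⟨(P ⟨⟨s, hx⟩, j⟩).1 u' v', fun y => ?_⟩
              simp only [val, ins]
              rw [dif_pos hx, Function.update_self]
              exact congrFun (Function.update_of_ne hu y (P ⟨⟨s, hx⟩, j⟩).1) v'
          · left
            refine ⟨(P ⟨⟨x.1.1, hx⟩, x.1.2⟩).1 x.2.1 x.2.2, fun y => ?_⟩
            simp only [val, ins]
            rw [dif_pos hx, Function.update_of_ne hxp]
        · left
          refine ⟨(D.c x.1).1 x.2.1 x.2.2, fun y => ?_⟩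
          simp only [val, ins]
          rw [dif_neg hx]
      · left
        by_cases hx : n ≤ x.1.1.length ∧ x.1.1.length ≤ N
        · refine ⟨(P ⟨⟨x.1.1, hx⟩, x.1.2⟩).2 x.2, fun y => ?_⟩
          simp only [val, ins]
          rw [dif_pos hx]
          by_cases hxp : (⟨⟨x.1.1, hx⟩, x.1.2⟩ : Bi n N) = p
          · obtain ⟨⟨s, j⟩, z⟩ := x
            subst hxp
            rw [Function.update_self]
          · rw [Function.update_of_ne hxp]
        · refine ⟨(D.c x.1).2 x.2, fun y => ?_⟩
          simp only [val, ins]
          rw [dif_neg hx]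
  · unfold lbv
    by_cases hp : ∃ p : Ps, str p = w ∧ lvl p < n
    · left
      exact ⟨orc V D w, fun c => by rw [if_pos hp]⟩
    · simp only [if_neg hp]
      refine base_par (Y := Fin (wln (hl p)) → Bool) hBAS (fun c => ins n N D X (a, h,
        Function.update P p ((P p).1, c))) w fun q => ?_
      rcases q with x | x | x | x
      · exact Or.inl ⟨Function.update D.X n X x.1 x.2, fun y => rfl⟩
      · exact Or.inl ⟨val (ins n N D X (a, h, P)) (Sum.inr (Sum.inl x)), fun y => rfl⟩
      · left
        by_cases hx : n ≤ x.1.1.length ∧ x.1.1.length ≤ N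
        · refine ⟨(P ⟨⟨x.1.1, hx⟩, x.1.2⟩).1 x.2.1 x.2.2, fun y => ?_⟩
          simp only [val, ins]
          rw [dif_pos hx]
          by_cases hxp : (⟨⟨x.1.1, hx⟩, x.1.2⟩ : Bi n N) = p
          · obtain ⟨⟨s, j⟩, z⟩ := x
            subst hxp
            rw [Function.update_self]
          · rw [Function.update_of_ne hxp]
        · refine ⟨(D.c x.1).1 x.2.1 x.2.2, fun y => ?_⟩
          simp only [val, ins]
          rw [dif_neg hx]
      · by_cases hx : n ≤ x.1.1.length ∧ x.1.1.length ≤ N
        · by_cases hxp : (⟨⟨x.1.1, hx⟩, x.1.2⟩ : Bi n N) = p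
          · obtain ⟨⟨s, j⟩, z⟩ := x
            subst hxp
            right
            refine ⟨z, fun y => ?_⟩
            simp only [val, ins]
            rw [dif_pos hx, Function.update_self]
          · left
            refine ⟨(P ⟨⟨x.1.1, hx⟩, x.1.2⟩).2 x.2, fun y => ?_⟩
            simp only [val, ins]
            rw [dif_pos hx, Function.update_of_ne hxp]
        · left
          refine ⟨(D.c x.1).2 x.2, fun y => ?_⟩
          simp only [val, ins]
          rw [dif_neg hx]
  · unfold lbv
    by_cases hp : ∃ p : Ps, str p = w ∧ lvl p < n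
    · left
      exact ⟨orc V D w, fun c => by rw [if_pos hp]⟩
    · simp only [if_neg hp]
      refine base_par (Y := Fin n → Bool) hBAS (fun X' => ins n N D X' (a, h, P)) w
        fun q => ?_
      rcases q with x | x | x | x
      · obtain ⟨m, z⟩ := x
        by_cases hm : m = n
        · subst hm
          right
          refine ⟨z, fun y => ?_⟩
          simp only [val, ins]
          rw [Function.update_self]
        · left
          refine ⟨D.X m z, fun y => ?_⟩
          simp only [val, ins]
          rw [Function.update_of_ne hm]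
      · exact Or.inl ⟨val (ins n N D X (a, h, P)) (Sum.inr (Sum.inl x)), fun y => rfl⟩
      · exact Or.inl ⟨val (ins n N D X (a, h, P)) (Sum.inr (Sum.inr (Sum.inl x))), fun y => rfl⟩
      · exact Or.inl ⟨val (ins n N D X (a, h, P)) (Sum.inr (Sum.inr (Sum.inr x))), fun y => rfl⟩

end Pool.Agent.H70.RC
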