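import Pool.Agent.H70.RC.Targets

/-!
# The oracle of a stage
-/

set_option autoImplicit false

namespace Pool.Agent.H70.RC

open Finset Pool.Agent.H6.NB Pool.Agent.H70.OQ Pool.Agent.H70.EH Pool.Agent.H70.EI Pool.Agent.H78.XQ

/-- The data of a stage agree with the old data at the other levels. -/
theorem agr_ins (n N : ℕ) (D : Dat) (X : (Fin n → Bool) → Bool) (σ : Se n N) (hN : n ≤ N) :
    Agr (fun i => i < n ∨ N < i) D (ins n N D X σ) := by
  refine ⟨fun m hm => ?_, fun s hs => ?_, fun s hs => ?_, fun p hp => ?_⟩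
  · have hne : m ≠ n := by omega
    simp only [ins]
    rw [Function.update_of_ne hne]
  · simp only [ins]
    rw [dif_neg (by omega)]
  · simp only [ins]
    rw [dif_neg (by omega)]
  · simp only [ins]
    rw [dif_neg (by omega)]

theorem pf_ORL (hSTR : T_STR) (hORC : T_ORC) : T_ORL := by
  classical
  intro V n N D X σ hN w hw
  obtain ⟨D', hD'⟩ : ∃ D', D' = ins n N D X σ := ⟨_, rfl⟩
  obtain ⟨o1, o2, _⟩ := hORC V D'
  have hag := agr_ins n N D X σ hN
  rw [← hD'] at hag ⊢
  have hD'a : ∀ s : Li n N, D'.a s.1 = σ.1 s := by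
    intro s
    rw [hD']
    simp only [ins]
    rw [dif_pos s.2]
  rcases hl : lst σ.1 w with _ | s
  · unfold fv
    rw [hl]
    simp only
    unfold lbv
    by_cases hp : ∃ p : Ps, str p = w ∧ lvl p < n
    · rw [if_pos hp]
      obtain ⟨p, rfl, hp2⟩ := hp
      have h1 : Agr (fun i => i < n) D D' :=
        ⟨fun m hm => hag.1 m (Or.inl hm), fun s hs => hag.2.1 s (Or.inl hs),
          fun s hs => hag.2.2.1 s (Or.inl hs), fun p hp => hag.2.2.2 p (Or.inl hp)⟩
      exact (((hORC V D).2.2 D' n h1).1 p hp2).symm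
    · rw [if_neg hp, ← hD']
      refine o1 w fun s hs => ?_
      by_cases h1 : s.length < n
      · exact hp ⟨Sum.inr (Sum.inl ⟨s, D'.a s⟩), hs.symm, h1⟩
      by_cases h2 : s.length ≤ N
      · have h3 : ∃ s : Li n N, w = arrp s.1 (List.ofFn (σ.1 s)) := by
          refine ⟨⟨s, by omega, h2⟩, ?_⟩
          rw [← hD'a]
          exact hs
        unfold lst at hl
        rw [dif_pos h3] at hl
        exact absurd hl (by simp)
      · have h3 := hSTR.2.2.1 s (D'.a s)
        have h4 : w.length = (arrp s (List.ofFn (D'.a s))).length := by rw [hs]; rfl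
        omega
  · have hw' : w = star D' s.1 := by
      unfold lst at hl
      by_cases h3 : ∃ s : Li n N, w = arrp s.1 (List.ofFn (σ.1 s))
      · rw [dif_pos h3] at hl
        have h4 := h3.choose_spec
        rw [Option.some.inj hl, ← hD'a] at h4
        exact h4
      · rw [dif_neg h3] at hl
        exact absurd hl (by simp)
    unfold fv
    rw [hl]
    simp only
    rw [hw']
    by_cases h : ans V (orc V D') s.1
    · rw [(o2 s.1).2 h, decide_eq_true h]
    · have h5 : ¬ orc V D' (star D' s.1) = true := fun e => h ((o2 s.1).1 e)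
      rw [Bool.not_eq_true] at h5
      rw [h5, decide_eq_false h]

end Pool.Agent.H70.RC
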