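import Pool.Agent.H78.XQ.All
import Pool.Agent.H32.RC.DNF
import Pool.Agent.H49.RC.RAZ
import Pool.Agent.H51.RC.EXO
import Pool.Agent.H51.RC.MUM
import Pool.Agent.H52.RC.LVL
import Pool.Agent.H52.RC.NUM
import Pool.Agent.H52.RC.SIM
import Pool.Agent.H52.RC.STR
import Pool.Agent.H60.RC.CNT
import Pool.Agent.H60.RC.HYB
import Pool.Agent.H60.RC.LOC
import Pool.Agent.H6.RC.SIX
import Pool.Agent.H60.RC.NEW
import Pool.Agent.H61.RC.PA
import Pool.Agent.H61.RC.PB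
import Pool.Agent.H64.RC.ACB
import Pool.Agent.H64.RC.BAS
import Pool.Agent.H64.RC.CONB
import Pool.Agent.H66.RC.EVO
import Pool.Agent.H70.RC.ARY
import Pool.Agent.H70.RC.ENC
import Pool.Agent.H70.RC.Fin3
import Pool.Agent.H70.RC.LIT
import Pool.Agent.H70.RC.ORL
import Pool.Agent.H77.RC.ESX
import Pool.Agent.H86.RC.PNT
import Pool.Agent.H92.RC.FIN
import Pool.Agent.H92.RC.LST
import Pool.Agent.H92.RC.MUG
import Pool.Agent.H92.RC.RZG
import Pool.Agent.H97.RC.BLG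
import Pool.Agent.H97.RC.ESY
import Pool.Agent.H97.RC.ORC

/-!
# The relativizing consequences of NP ⊆ BQP: assembly
-/

set_option autoImplicit false

namespace Pool.Agent.H70.RC

open Pool.Agent.H78.XQ Pool.Agent.H70.EI

theorem all_STR : Pool.Agent.H70.RC.T_STR := Pool.Agent.H52.RC.pf_STR pf_COD_NB

theorem all_BAS : T_BAS := Pool.Agent.H64.RC.pf_BAS all_STR

theorem all_ANL : T_ANL := Pool.Agent.H32.RC.pf_ANL pf_COD_NB

theorem all_INS : T_INS := Pool.Agent.H32.RC.pf_INS pf_COD_NB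

theorem all_DNF : T_DNF := Pool.Agent.H32.RC.pf_DNF pf_COD_NB

theorem all_ORC : T_ORC := Pool.Agent.H97.RC.pf_ORC all_STR all_ANL all_BAS

theorem all_LIT : T_LIT := pf_LIT all_BAS

theorem all_ARY : T_ARY := pf_ARY all_STR all_BAS

theorem all_ORL : T_ORL := pf_ORL all_STR all_ORC

theorem all_RAZ : T_RAZ := Pool.Agent.H49.RC.pf_RAZ pf_ENC Pool.Agent.H60.RC.pf_CNT

theorem all_RZG : T_RZG := Pool.Agent.H92.RC.pf_RZG all_RAZ all_ARY all_LIT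

theorem all_CON : T_CON := Pool.Agent.H64.RC.pf_CON pf_BLX pf_MAS all_STR pf_CLB_NB

theorem all_MUM : T_MUM := Pool.Agent.H51.RC.pf_MUM pf_MAS

theorem all_EXO : T_EXO := Pool.Agent.H51.RC.pf_EXO pf_EXA all_ORC all_BAS all_STR

theorem all_EVO : T_EVO := Pool.Agent.H66.RC.pf_EVO Pool.Agent.H61.RC.pf_VAL
  Pool.Agent.H61.RC.pf_PNM all_ORL all_LIT Pool.Agent.H52.RC.pf_LVL all_STR

theorem all_ACB : T_ACB := Pool.Agent.H64.RC.pf_ACB pf_CLB_NB pf_CNJ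

theorem all_BLG : T_BLG := Pool.Agent.H97.RC.pf_BLG pf_BLX pf_MAS pf_CLB_NB all_ACB all_LIT all_STR

theorem all_MUG : T_MUG := Pool.Agent.H92.RC.pf_MUG all_BLG all_RZG Pool.Agent.H60.RC.pf_HYB pf_MAS

theorem all_LST : T_LST := Pool.Agent.H92.RC.pf_LST all_MUG all_MUM Pool.Agent.H52.RC.pf_NUM
  Pool.Agent.H60.RC.pf_NEW

theorem all_ESY : T_ESY := Pool.Agent.H97.RC.pf_ESY all_LST all_EVO all_DNF Pool.Agent.H86.RC.pf_PNT
  Pool.Agent.H61.RC.pf_PNM Pool.Agent.H52.RC.pf_SIM Pool.Agent.H60.RC.pf_LOC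

theorem all_ESX : T_ESX := Pool.Agent.H77.RC.pf_ESX all_LST all_EVO all_DNF Pool.Agent.H86.RC.pf_PNT
  Pool.Agent.H61.RC.pf_PNM Pool.Agent.H6.RC.pf_SIX Pool.Agent.H60.RC.pf_LOC

theorem all_FNX : T_FNX := pf_FNX all_ESY all_ESX Pool.Agent.H60.RC.pf_LOC all_ORC all_BAS all_CON all_EXO
  all_INS all_STR

end Pool.Agent.H70.RC
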