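import Pool.Agent.H78.XQ.Stmt

/-!
# The relativizing consequences of NP ⊆ BQP: definitions

Quantum query algorithms `QAlg`, nondeterministic oracle machines `Verifier`, the codes `code`, `inst` are
those of `Pool.Agent.H6.NB.Stmt`; the exact quantum algorithm `exact` is that of `Pool.Agent.H78.XQ.Stmt`.
-/

set_option autoImplicit false

namespace Pool.Agent.H70.RC

open Pool.Agent.H6.NB Pool.Agent.H78.XQ

/-! ### Computations with an NP oracle in the query model -/

/-- A term: a list of literals; the literal `(v, b)` says that the variable `v` has the value `b`. -/
abbrev Term (V : Type) : Type := List (V × Bool)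

/-- The term `T` is satisfied by `X`. -/
def Term.Sat {V : Type} (X : V → Bool) (T : Term V) : Prop := ∀ p ∈ T, X p.1 = p.2

/-- A disjunctive normal form: a list of terms. -/
abbrev DNF (V : Type) : Type := List (Term V)

/-- The disjunctive normal form `F` is satisfied by `X`. -/
def DNF.Sat {V : Type} (X : V → Bool) (F : DNF V) : Prop := ∃ T ∈ F, Term.Sat X T

/-- An NP query of size `t` (guess one of at most `2 ^ t` terms, check at most `t` literals). -/
def DNF.Small {V : Type} (t : ℕ) (F : DNF V) : Prop := F.length ≤ 2 ^ t ∧ ∀ T ∈ F, T.length ≤ t

/-- Deterministic computations which ask NP queries: if the query `F` is satisfied, the tree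
`node F l r` continues with `r`, otherwise with `l`. -/
inductive PT (V : Type) : Type
  | leaf (b : Bool) : PT V
  | node (F : DNF V) (l r : PT V) : PT V

namespace PT

variable {V : Type}

open Classical in
/-- The output. -/
noncomputable def eval (X : V → Bool) : PT V → Bool
  | leaf b => b
  | node F l r => if DNF.Sat X F then r.eval X else l.eval X

/-- The maximal number of NP queries. -/
def depth : PT V → ℕ
  | leaf _ => 0
  | node _ l r => max l.depth r.depth + 1

/-- All NP queries have size at most `t`. -/
def Small (t : ℕ) : PT V → Prop
  | leaf _ => True
  | node F l r => DNF.Small t F ∧ l.Small t ∧ r.Small t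

end PT

/-- The partial function `f` of the truth table `X : {0,1}^n → {0,1}` is computed with cost `m` and error
at most `2/5` by a quantum algorithm with an oracle for functions in P^NP: the algorithm makes at most `m`
queries to strings `w` of length at most `m`, the answer to the query `w` is the output of the
computation `g w` on `X`, which asks at most `m` NP queries of size at most `m`. -/
def EasyAt (n m : ℕ) (f : ((Fin n → Bool) → Bool) → Option Bool) : Prop :=
  ∃ (Q : QAlg) (g : List Bool → PT (Fin n → Bool)), Q.T ≤ m ∧ Q.Short m ∧
    (∀ w, (g w).depth ≤ m ∧ (g w).Small m) ∧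
    ∀ X, (f X = some true → 3 / 5 ≤ Q.prob fun w => (g w).eval X) ∧
      (f X = some false → (Q.prob fun w => (g w).eval X) ≤ 2 / 5)

/-! ### Oracles -/

/-- The section number `n` of the oracle `O`: the truth table of `w ↦ O (0 w)`, `|w| = n`. -/
def sec (O : List Bool → Bool) (n : ℕ) : (Fin n → Bool) → Bool := fun w => O (false :: List.ofFn w)

/-- The quantum algorithm `Q` gives the right answer with error at most `1/3`, if the right answer is `a`
(`none`: every answer is right). -/
def Right (Q : QAlg) (O : List Bool → Bool) (a : Option Bool) : Prop :=
  (a = some true → 2 / 3 ≤ Q.prob O) ∧ (a = some false → Q.prob O ≤ 1 / 3)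

/-! ### The exact quantum algorithm for the NP languages -/

/-- The instance string of the bit number `j` of the address which belongs to `s`. -/
def hom (s : List Bool) (j : ℕ) : List Bool :=
  code s (List.replicate j true) (16 * (s.length + 20) ^ 3)

/-- The position of the entry `a` of the array which belongs to `s`. -/
def arrp (s a : List Bool) : List Bool := code (true :: s) a 3

/-- The acceptance probability of the following quantum algorithm: for each `j < |s|` run the exact
algorithm `exact (hom s j)`, let `a j` be its outcome; query the oracle at the string `arrp s a` and accept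
iff the oracle contains it. -/
noncomputable def yesP (O : List Bool → Bool) (s : List Bool) : ℝ :=
  ∑ a : Fin s.length → Bool, (∏ j : Fin s.length,
    if a j then (exact (hom s j)).prob O else 1 - (exact (hom s j)).prob O) *
    (if O (arrp s (List.ofFn a)) then 1 else 0)

end Pool.Agent.H70.RC
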