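import Pool.Agent.H78.XQ.Targets
import Pool.Agent.H70.RC.Stmt

/-!
# The relativizing consequences of NP ⊆ BQP: definitions for the proof
-/

set_option autoImplicit false

namespace Pool.Agent.H70.RC

open Finset Pool.Agent.H6.NB Pool.Agent.H70.OQ Pool.Agent.H70.EH Pool.Agent.H70.EI Pool.Agent.H78.XQ

/-! ### Functions in P^NP -/

/-- `g` is computed by asking at most `c` NP queries of size at most `t`. -/
inductive PNP {V α : Type} (t : ℕ) : ℕ → ((V → Bool) → α) → Prop
  | pure (c : ℕ) (a : α) : PNP t c fun _ => a
  | ask (c : ℕ) (F : DNF V) (g g0 g1 : (V → Bool) → α) (hF : DNF.Small t F) (h0 : PNP t c g0)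
      (h1 : PNP t c g1) (hg1 : ∀ X, DNF.Sat X F → g X = g1 X) (hg0 : ∀ X, ¬ DNF.Sat X F → g X = g0 X) :
      PNP t (c + 1) g

/-! ### Evaluation of a disjunctive normal form with unknown bits -/

section run

variable {W S : Type} [DecidableEq S]

/-- The partial values: `st w = some s` means that the value at `w` is the bit number `s`, which is only
known if it occurs in the list `κ`; all other values are given by `bv`. -/
def pv (st : W → Option S) (bv : W → Bool) (κ : List (S × Bool)) (w : W) : Option Bool :=
  match st w with
  | none => some (bv w)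
  | some s => κ.lookup s

/-- The values if `β` gives the unknown bits. -/
def fv (st : W → Option S) (bv : W → Bool) (β : S → Bool) (w : W) : Bool :=
  match st w with
  | none => bv w
  | some s => β s

/-- The term does not contradict the partial values. -/
def psat (g : W → Option Bool) (T : Term W) : Prop := ∀ p ∈ T, g p.1 = none ∨ g p.1 = some p.2

open Classical in
/-- The canonical evaluation: find the first term which does not contradict the known bits, ask for all
unknown bits in it; if the term is satisfied the answer is yes, otherwise repeat (at most `r` rounds). -/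
noncomputable def run (st : W → Option S) (bv : W → Bool) (F : DNF W) (β : S → Bool) :
    ℕ → List (S × Bool) → Option Bool
  | 0, _ => none
  | r + 1, κ =>
    match F.find? (fun T => decide (psat (pv st bv κ) T)) with
    | none => some false
    | some T => if Term.Sat (fv st bv β) T then some true
        else run st bv F β r ((T.filterMap fun p => (st p.1).map fun s => (s, β s)) ++ κ)

/-- Some sequence of answers makes the canonical evaluation run for more than `r` rounds. -/
def Bad (st : W → Option S) (bv : W → Bool) (F : DNF W) (r : ℕ) : Prop :=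
  ∃ β : S → Bool, run st bv F β r [] = none

end run

/-! ### Instances -/

/-- The answer of the instance `s`. -/
def ans (V : ℕ → Verifier) (O : List Bool → Bool) (s : List Bool) : Prop :=
  ∃ (i : ℕ) (x : List Bool), s = inst (V i).c i x ∧ x ∈ (V i).lang O

/-- `F s` is a disjunctive normal form for the answer of the instance `s`, with terms of length at most
`t s` and queries of length at most `t s`. -/
structure Nf (V : ℕ → Verifier) (F : List Bool → DNF (List Bool)) (t : List Bool → ℕ) : Prop where
  sq : ∀ s, (t s + 1) ^ 2 ≤ s.length + 1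
  len : ∀ s, (F s).length ≤ 2 ^ (2 * t s + 1)
  tl : ∀ s, ∀ T ∈ F s, T.length ≤ t s
  nd : ∀ s, ∀ T ∈ F s, (T.map Prod.fst).Nodup
  ql : ∀ s, ∀ T ∈ F s, ∀ p ∈ T, p.1.length ≤ t s
  ans : ∀ s O, ans V O s ↔ DNF.Sat O (F s)

/-! ### Positions -/

/-- The indices of the blocks: the block `(s, j)` encodes the bit number `j` of the address of `s`. -/
abbrev Bx : Type := Σ s : List Bool, Fin s.length

/-- The instance string of a block. -/
def hb (p : Bx) : List Bool := hom p.1 p.2

/-- The content of the block with the instance string `h`. -/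
abbrev CB (h : List Bool) : Type :=
  ((Fin (2 * h.length) → Bool) → VV (qs h) → Bool) × ((Fin (wln h) → Bool) → Bool)

/-- The block says the bit `b`. -/
def okb (h : List Bool) (b : Bool) (c : CB h) : Prop := OkB (qs h) h.length (rns h) (wln h) b c

/-- Positions of the oracle: entries of the sections, entries of the arrays, copies and correction strings
of the blocks. -/
abbrev Ps : Type := (Σ n : ℕ, Fin n → Bool) ⊕ (Σ s : List Bool, Fin s.length → Bool) ⊕
  (Σ p : Bx, (Fin (2 * (hb p).length) → Bool) × VV (qs (hb p))) ⊕ (Σ p : Bx, Fin (wln (hb p)) → Bool)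

/-- The string of a position. -/
def str : Ps → List Bool
  | .inl x => false :: List.ofFn x.2
  | .inr (.inl x) => arrp x.1 (List.ofFn x.2)
  | .inr (.inr (.inl x)) => pos (hb x.1) (List.ofFn x.2.1) (List.ofFn x.2.2.2) x.2.2.1
  | .inr (.inr (.inr x)) => wps (hb x.1) (List.ofFn x.2)

/-- The level of a position. -/
def lvl : Ps → ℕ
  | .inl x => x.1
  | .inr (.inl x) => x.1.length
  | .inr (.inr (.inl x)) => x.1.1.length
  | .inr (.inr (.inr x)) => x.1.1.length

/-- The data of an oracle: sections, addresses, arrays and blocks. -/
structure Dat where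
  X : (n : ℕ) → (Fin n → Bool) → Bool
  a : (s : List Bool) → Fin s.length → Bool
  h : (s : List Bool) → (Fin s.length → Bool) → Bool
  c : (p : Bx) → CB (hb p)

/-- The blocks encode the addresses and the sections are in the domain of `f`. -/
def Dat.Ok (f : (n : ℕ) → ((Fin n → Bool) → Bool) → Option Bool) (D : Dat) : Prop :=
  (∀ n, f n (D.X n) ≠ none) ∧ ∀ p : Bx, okb (hb p) (D.a p.1 p.2) (D.c p)

/-- The value of a position, with junk in the arrays. -/
def val (D : Dat) : Ps → Bool
  | .inl x => D.X x.1 x.2
  | .inr (.inl x) => D.h x.1 x.2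
  | .inr (.inr (.inl x)) => (D.c x.1).1 x.2.1 x.2.2
  | .inr (.inr (.inr x)) => (D.c x.1).2 x.2

open Classical in
/-- The oracle with junk in the arrays. -/
noncomputable def base (D : Dat) (w : List Bool) : Bool :=
  if h : ∃ p : Ps, str p = w then val D h.choose else false

/-- The position of the answer of the instance `s`. -/
def star (D : Dat) (s : List Bool) : List Bool := arrp s (List.ofFn (D.a s))

open Classical in
/-- The oracle with the answers of the instances of length less than `L`. -/
noncomputable def lev (V : ℕ → Verifier) (D : Dat) : ℕ → List Bool → Bool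
  | 0 => base D
  | L + 1 => fun w => if h : ∃ s : List Bool, s.length = L ∧ w = star D s then
      decide (ans V (lev V D L) h.choose) else lev V D L w

/-- The oracle. -/
noncomputable def orc (V : ℕ → Verifier) (D : Dat) (w : List Bool) : Bool := lev V D w.length w

/-- The data agree at the levels `i` with `Z i`. -/
def Agr (Z : ℕ → Prop) (D D' : Dat) : Prop :=
  (∀ n, Z n → D.X n = D'.X n) ∧ (∀ s : List Bool, Z s.length → D.a s = D'.a s) ∧
  (∀ s : List Bool, Z s.length → D.h s = D'.h s) ∧ ∀ p : Bx, Z p.1.length → D.c p = D'.c p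

/-! ### One stage -/

/-- The live instances. -/
abbrev Li (n N : ℕ) : Type := {s : List Bool // n ≤ s.length ∧ s.length ≤ N}

noncomputable instance (n N : ℕ) : Fintype (Li n N) :=
  (Set.Finite.subset (List.finite_length_le Bool N) fun _ h => h.2 :
    {s : List Bool | n ≤ s.length ∧ s.length ≤ N}.Finite).fintype

/-- The indices of the live blocks. -/
abbrev Bi (n N : ℕ) : Type := Σ s : Li n N, Fin s.1.length

/-- The instance string of a live block. -/
def hl {n N : ℕ} (p : Bi n N) : List Bool := hb ⟨p.1.1, p.2⟩

/-- The addresses of the live instances. -/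
abbrev Ad (n N : ℕ) : Type := (s : Li n N) → Fin s.1.length → Bool

/-- The arrays of the live instances. -/
abbrev Ar (n N : ℕ) : Type := (s : Li n N) → (Fin s.1.length → Bool) → Bool

/-- The contents of the live blocks. -/
abbrev Bl (n N : ℕ) : Type := (p : Bi n N) → CB (hl p)

/-- The seeds: addresses, arrays and blocks. -/
abbrev Se (n N : ℕ) : Type := Ad n N × Ar n N × Bl n N

open Classical in
/-- The data with the section `X` at the level `n` and the seeds `σ` between the levels `n` and `N`. -/
noncomputable def ins (n N : ℕ) (D : Dat) (X : (Fin n → Bool) → Bool) (σ : Se n N) : Dat where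
  X := Function.update D.X n X
  a := fun s => if h : n ≤ s.length ∧ s.length ≤ N then σ.1 ⟨s, h⟩ else D.a s
  h := fun s => if h : n ≤ s.length ∧ s.length ≤ N then σ.2.1 ⟨s, h⟩ else D.h s
  c := fun p => if h : n ≤ p.1.length ∧ p.1.length ≤ N then σ.2.2 ⟨⟨p.1, h⟩, p.2⟩ else D.c p

open Classical in
/-- The unknown bits. -/
noncomputable def lst {n N : ℕ} (a : Ad n N) (w : List Bool) : Option (Li n N) :=
  if h : ∃ s : Li n N, w = arrp s.1 (List.ofFn (a s)) then some h.choose else none

open Classical in
/-- The known bits. -/
noncomputable def lbv (V : ℕ → Verifier) {n N : ℕ} (D : Dat) (X : (Fin n → Bool) → Bool) (σ : Se n N)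
    (w : List Bool) : Bool :=
  if ∃ p : Ps, str p = w ∧ lvl p < n then orc V D w else base (ins n N D X σ) w

/-- All canonical evaluations stop within `N` rounds. -/
def GoodS (V : ℕ → Verifier) (F : List Bool → DNF (List Bool)) {n N : ℕ} (D : Dat)
    (X : (Fin n → Bool) → Bool) (σ : Se n N) : Prop :=
  ∀ s : Li n N, ¬ Bad (lst σ.1) (lbv V D X σ) (F s.1) N

/-- The blocks encode the addresses. -/
def okE {n N : ℕ} (σ : Se n N) : Prop := ∀ p : Bi n N, okb (hl p) (σ.1 p.1 p.2) (σ.2.2 p)

/-- The number of addresses and arrays. -/
noncomputable def nAA (n N : ℕ) : ℝ := (Fintype.card (Ad n N) : ℝ) * Fintype.card (Ar n N)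

/-- The distribution of the seeds. -/
noncomputable def mu {n N : ℕ} (σ : Se n N) : ℝ := 1 / nAA n N *
  ∏ p : Bi n N, mB (qs (hl p)) (hl p).length (rns (hl p)) (wln (hl p)) (σ.1 p.1 p.2) (σ.2.2 p)

/-- The uniform distribution of the seeds. -/
noncomputable def mu0 {n N : ℕ} (σ : Se n N) : ℝ := 1 / nAA n N *
  ∏ p : Bi n N, m0 (qs (hl p)) (hl p).length (wln (hl p)) (σ.2.2 p)

end Pool.Agent.H70.RC
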