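import Pool.Agent.H70.RC.Targets2
import Pool.Agent.H92.RC.FIN

/-!
# The relativizing consequences of NP ⊆ BQP: one oracle for all tests
-/

set_option autoImplicit false

namespace Pool.Agent.H70.RC

open Finset Filter
open Pool.Agent.H6.NB (Verifier QAlg inst)
open Pool.Agent.H92.RC

/-- One stage, for a general test `τ`. -/
theorem stage_gen (f : (n : ℕ) → ((Fin n → Bool) → Bool) → Option Bool) (V : ℕ → Verifier)
    (τ : ℕ → (List Bool → Bool) → Option Bool → Prop) (c : ℕ) (E : ℕ → ℕ → Prop) (S : Set ℕ)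
    (hnone : ∀ n O, τ n O none)
    (hesy : ∃ C : ℕ, ∀ᶠ n in atTop, ∀ N : ℕ, N = n ^ (c + 1) + c + 1 → ∀ D : Dat,
      (∀ X, ∀ σ : Se n N, okE σ → τ n (orc V (ins n N D X σ)) (f n X)) → E n (n ^ C + C))
    (hhard : ∀ c, ∃ᶠ n in atTop, n ∈ S ∧ ¬ E n (n ^ c + c)) (D : Dat) (hD : D.Ok f) (n₀ : ℕ) :
    ∃ n N : ℕ, n₀ ≤ n ∧ n ≤ N ∧ n ^ c + c ≤ N ∧ n ∈ S ∧ ∃ D' : Dat, D'.Ok f ∧
      Agr (fun i => i < n ∨ N < i) D D' ∧ ¬ τ n (orc V D') (f n (D'.X n)) := by
  obtain ⟨C, hC⟩ := hesy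
  obtain ⟨n, ⟨hnS, hn1⟩, hn2, hn3⟩ :=
    ((hhard C).and_eventually (hC.and (eventually_ge_atTop n₀))).exists
  set N := n ^ (c + 1) + c + 1 with hN
  have hnc : n ^ c ≤ n ^ (c + 1) + 1 := by
    rcases Nat.eq_zero_or_pos n with h | h
    · subst h
      rcases Nat.eq_zero_or_pos c with h' | h'
      · subst h'
        simp
      · rw [zero_pow h'.ne']
        omega
    · exact (Nat.pow_le_pow_right h (Nat.le_succ c)).trans (Nat.le_succ _)
  have hnN : n ≤ N := by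
    rcases Nat.eq_zero_or_pos n with h | h
    · omega
    · have : n ^ 1 ≤ n ^ (c + 1) := Nat.pow_le_pow_right h (by omega)
      rw [pow_one] at this
      omega
  have h1 : ∃ X, ∃ σ : Se n N, okE σ ∧ ¬ τ n (orc V (ins n N D X σ)) (f n X) := by
    by_contra h
    push Not at h
    exact hn1 (hn2 N rfl D h)
  obtain ⟨X, σ, hσ, hR⟩ := h1
  have hX : (ins n N D X σ).X n = X := by
    unfold ins
    exact Function.update_self _ _ _
  have hX' : ∀ n', n' ≠ n → (ins n N D X σ).X n' = D.X n' := by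
    intro n' h
    unfold ins
    exact Function.update_of_ne h _ _
  refine ⟨n, N, hn3, hnN, by omega, hnS, ins n N D X σ, ⟨?_, ?_⟩,
    ⟨?_, ?_, ?_, ?_⟩, ?_⟩
  · intro n'
    by_cases h : n' = n
    · subst h
      rw [hX]
      intro h0
      rw [h0] at hR
      exact hR (hnone _ _)
    · rw [hX' n' h]
      exact hD.1 n'
  · intro p
    by_cases h : n ≤ p.1.length ∧ p.1.length ≤ N
    · have h2 := hσ ⟨⟨p.1, h⟩, p.2⟩
      have e1 : (ins n N D X σ).a p.1 = σ.1 ⟨p.1, h⟩ := by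
        unfold ins
        exact dif_pos h
      have e2 : (ins n N D X σ).c p = σ.2.2 ⟨⟨p.1, h⟩, p.2⟩ := by
        unfold ins
        exact dif_pos h
      rw [e1, e2]
      exact h2
    · have e1 : (ins n N D X σ).a p.1 = D.a p.1 := by
        unfold ins
        exact dif_neg h
      have e2 : (ins n N D X σ).c p = D.c p := by
        unfold ins
        exact dif_neg h
      rw [e1, e2]
      exact hD.2 p
  · intro n' h
    exact (hX' n' (by omega)).symm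
  · intro s h
    have h' : ¬ (n ≤ s.length ∧ s.length ≤ N) := by omega
    have e : (ins n N D X σ).a s = D.a s := by
      unfold ins
      exact dif_neg h'
    exact e.symm
  · intro s h
    have h' : ¬ (n ≤ s.length ∧ s.length ≤ N) := by omega
    have e : (ins n N D X σ).h s = D.h s := by
      unfold ins
      exact dif_neg h'
    exact e.symm
  · intro p h
    have h' : ¬ (n ≤ p.1.length ∧ p.1.length ≤ N) := by omega
    have e : (ins n N D X σ).c p = D.c p := by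
      unfold ins
      exact dif_neg h'
    exact e.symm
  · rw [hX]
    exact hR

/-- One oracle for all tests. -/
theorem fin_gen (hORC : T_ORC) (hBAS : T_BAS) (hCON : T_CON) (hEXO : T_EXO)
    (hINS : Pool.Agent.H70.RC.T_INS) (hSTR : T_STR)
    (f : (n : ℕ) → ((Fin n → Bool) → Bool) → Option Bool) (hf : ∀ n, ∃ X, f n X ≠ none)
    (V : ℕ → Verifier) (τ : ℕ → ℕ → (List Bool → Bool) → Option Bool → Prop) (c : ℕ → ℕ)
    (E : ℕ → ℕ → ℕ → Prop) (S : ℕ → Set ℕ)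
    (hloc : ∀ j n O O' a, (∀ w : List Bool, w.length ≤ n ^ (c j) + c j → O w = O' w) → τ j n O a →
      τ j n O' a)
    (hnone : ∀ j n O, τ j n O none)
    (hesy : ∀ j, ∃ C : ℕ, ∀ᶠ n in atTop, ∀ N : ℕ, N = n ^ (c j + 1) + c j + 1 → ∀ D : Dat,
      (∀ X, ∀ σ : Se n N, okE σ → τ j n (orc V (ins n N D X σ)) (f n X)) → E j n (n ^ C + C)) :
    ∃ O : List Bool → Bool, (∀ n, f n (sec O n) ≠ none) ∧
      (∀ i x, (x ∈ (V i).lang O → yesP O (inst (V i).c i x) = 1) ∧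
        (x ∉ (V i).lang O → yesP O (inst (V i).c i x) = 0)) ∧
      ∀ j, (∀ c, ∃ᶠ n in atTop, n ∈ S j ∧ ¬ E j n (n ^ c + c)) →
        ∃ᶠ n in atTop, n ∈ S j ∧ ¬ τ j n O (f n (sec O n)) := by
  classical
  -- the initial data
  choose X0 hX0 using hf
  choose C0 hC0 using hCON
  obtain ⟨D0, hD0⟩ : ∃ D : Dat, D.Ok f :=
    ⟨⟨X0, fun _ _ => false, fun _ _ => false, fun p => C0 p false⟩, hX0, fun p => hC0 p false⟩
  -- the steps
  have hstep : ∀ (e : ℕ) (Z : {D : Dat // D.Ok f} × ℕ), ∃ Z' : {D : Dat // D.Ok f} × ℕ, ∃ n : ℕ,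
      Z.2 ≤ n ∧ e ≤ n ∧ n < Z'.2 ∧ Agr (fun i => i < n) Z.1.1 Z'.1.1 ∧
      ((∀ c, ∃ᶠ n in atTop, n ∈ S e.unpair.1 ∧ ¬ E e.unpair.1 n (n ^ c + c)) →
        n ^ (c e.unpair.1) + c e.unpair.1 ≤ Z'.2 - 1 ∧ n ∈ S e.unpair.1 ∧
        ¬ τ e.unpair.1 n (orc V Z'.1.1) (f n (Z'.1.1.X n))) := by
    intro e Z
    by_cases hard : ∀ c, ∃ᶠ n in atTop, n ∈ S e.unpair.1 ∧ ¬ E e.unpair.1 n (n ^ c + c)
    · obtain ⟨n, N, h1, h2, h3, hS, D', h4, h5, h6⟩ :=
        stage_gen f V (τ e.unpair.1) (c e.unpair.1) (E e.unpair.1) (S e.unpair.1) (hnone _) (hesy _)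
          hard Z.1.1 Z.1.2 (max Z.2 e)
      exact ⟨(⟨D', h4⟩, N + 1), n, (le_max_left _ _).trans h1, (le_max_right _ _).trans h1,
        Nat.lt_succ_of_le h2, Agr.mono' (fun i hi => Or.inl hi) h5, fun _ => ⟨h3, hS, h6⟩⟩
    · exact ⟨(Z.1, max Z.2 e + 1), max Z.2 e, le_max_left _ _, le_max_right _ _,
        Nat.lt_succ_self _, Agr.refl' _ _, fun h => absurd h hard⟩
  choose nx nn g1 g2 g3 g5 g6 using hstep
  obtain ⟨Z, hZ0, hZ⟩ : ∃ Z : ℕ → {D : Dat // D.Ok f} × ℕ, Z 0 = (⟨D0, hD0⟩, 0) ∧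
      ∀ e, Z (e + 1) = nx e (Z e) :=
    ⟨fun e => Nat.rec (⟨D0, hD0⟩, 0) (fun e Z => nx e Z) e, rfl, fun _ => rfl⟩
  have hb1 : ∀ e, (Z e).2 ≤ nn e (Z e) := fun e => g1 e (Z e)
  have hb2 : ∀ e, nn e (Z e) < (Z (e + 1)).2 := fun e => by
    rw [hZ e]
    exact g3 e (Z e)
  have hbe : ∀ e, e ≤ (Z e).2 := by
    intro e
    cases e with
    | zero => exact Nat.zero_le _
    | succ e =>
      have := g2 e (Z e)
      have := hb2 e
      omega
  have hstab : ∀ e e', e ≤ e' → Agr (fun i => i < (Z e).2) (Z e).1.1 (Z e').1.1 ∧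
      (Z e).2 ≤ (Z e').2 := by
    intro e e' h
    induction e', h using Nat.le_induction with
    | base => exact ⟨Agr.refl' _ _, le_rfl⟩
    | succ e' he ih =>
      have h1 : Agr (fun i => i < nn e' (Z e')) (Z e').1.1 (Z (e' + 1)).1.1 := by
        rw [hZ e']
        exact g5 e' (Z e')
      refine ⟨Agr.trans' ih.1 (Agr.mono' (fun i hi => ?_) h1), ?_⟩
      · have := hb1 e'
        omega
      · have := hb1 e'
        have := hb2 e'
        omega
  -- the limit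
  obtain ⟨D, hD⟩ : ∃ D : Dat, D = ⟨fun n => (Z (n + 1)).1.1.X n, fun s => (Z (s.length + 1)).1.1.a s,
    fun s => (Z (s.length + 1)).1.1.h s, fun p => (Z (p.1.length + 1)).1.1.c p⟩ := ⟨_, rfl⟩
  have hlev : ∀ e i, i < (Z e).2 → Agr (fun j => j = i) (Z (i + 1)).1.1 (Z e).1.1 := by
    intro e i hi
    rcases le_total (i + 1) e with h | h
    · refine Agr.mono' (fun j hj => ?_) (hstab (i + 1) e h).1
      have := hbe (i + 1)
      omega
    · refine Agr.symm' (Agr.mono' (fun j hj => ?_) (hstab e (i + 1) h).1)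
      rw [hj]
      exact hi
  have hlim : ∀ e, Agr (fun i => i < (Z e).2) D (Z e).1.1 := by
    intro e
    rw [hD]
    exact ⟨fun n hn => (hlev e n hn).1 n rfl, fun s hs => (hlev e _ hs).2.1 s rfl,
      fun s hs => (hlev e _ hs).2.2.1 s rfl, fun p hp => (hlev e _ hp).2.2.2 p rfl⟩
  have hDok : D.Ok f := by
    rw [hD]
    exact ⟨fun n => (Z (n + 1)).1.2.1 n, fun p => (Z (p.1.length + 1)).1.2.2 p⟩
  have hsec : ∀ n, sec (orc V D) n = D.X n := sec_orc hSTR hORC hBAS V D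
  refine ⟨orc V D, ?_, ?_, ?_⟩
  · intro n
    rw [hsec n]
    exact hDok.1 n
  · intro i x
    obtain ⟨h1, h2⟩ := hEXO V f D hDok (inst (V i).c i x)
    have h3 := hINS V (orc V D) i x
    exact ⟨fun h => h1 (h3.2 h), fun h => h2 (fun h' => h (h3.1 h'))⟩
  · intro j hard
    rw [frequently_atTop]
    intro n0
    obtain ⟨e, he⟩ : ∃ e, e = Nat.pair j n0 := ⟨_, rfl⟩
    have hej : e.unpair.1 = j := by rw [he, Nat.unpair_pair]
    have hen : n0 ≤ e := by
      rw [he]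
      exact Nat.right_le_pair _ _
    have h0 := g6 e (Z e)
    rw [hej, ← hZ e] at h0
    obtain ⟨h4, hS, h6⟩ := h0 hard
    refine ⟨nn e (Z e), hen.trans (g2 e (Z e)), hS, ?_⟩
    have hlt := hb2 e
    have hX : D.X (nn e (Z e)) = (Z (e + 1)).1.1.X (nn e (Z e)) := (hlim (e + 1)).1 _ hlt
    have horc : ∀ w : List Bool, w.length ≤ (Z (e + 1)).2 - 1 →
        orc V D w = orc V (Z (e + 1)).1.1 w := by
      intro w hw
      exact ((hORC V D).2.2 (Z (e + 1)).1.1 (Z (e + 1)).2 (hlim (e + 1))).2 w (by omega)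
    rw [hsec, hX]
    intro hR
    exact h6 (hloc j _ _ _ _ (fun w hw => horc w (hw.trans h4)) hR)

end Pool.Agent.H70.RC
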