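import Pool.Agent.H70.RC.Stmt

/-!
# The relativizing consequences of NP ⊆ BQP: definitions for classes with provers
-/

set_option autoImplicit false

namespace Pool.Agent.H70.RC

open Pool.Agent.H6.NB

/-- The same as `EasyAt` for a set `R` of quantum algorithms (for instance: the algorithms which one gets
from a quantum verifier by fixing a quantum witness, or the strategies of one or several entangled provers
with whom the verifier communicates): the value `true` is recognised by some member, the value `false` by
all members. -/
def EasyAtP (n m : ℕ) (f : ((Fin n → Bool) → Bool) → Option Bool) : Prop :=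
  ∃ (R : Set QAlg) (g : List Bool → PT (Fin n → Bool)), (∀ A ∈ R, A.T ≤ m ∧ A.Short m) ∧
    (∀ w, (g w).depth ≤ m ∧ (g w).Small m) ∧
    ∀ X, (f X = some true → ∃ A ∈ R, 3 / 5 ≤ A.prob fun w => (g w).eval X) ∧
      (f X = some false → ∀ A ∈ R, (A.prob fun w => (g w).eval X) ≤ 2 / 5)

/-- The set `R` of quantum algorithms gives the right answer with error at most `1/3`, if the right answer
is `a` (`none`: every answer is right): yes if some member accepts, no if no member accepts. -/
def RightP (R : Set QAlg) (O : List Bool → Bool) (a : Option Bool) : Prop :=
  (a = some true → ∃ A ∈ R, 2 / 3 ≤ A.prob O) ∧ (a = some false → ∀ A ∈ R, A.prob O ≤ 1 / 3)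

end Pool.Agent.H70.RC
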